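import Pool.Agent.Q253.SL2.Env

set_option autoImplicit false
set_option linter.unusedSectionVars false

/-!
# Elements of `U(sl(2))` commuting with the generators are polynomials in the Casimir element
-/

namespace Pool.Agent.Q253.SL2

open Finset Polynomial

attribute [local instance 100] LieRing.ofAssociativeRing

section comm

variable {A : Type*} [Ring A] [Algebra ℂ A] (e f h : A)

theorem cas_comm (h1 : h * e - e * h = (2 : ℂ) • e)
    (h2 : h * f - f * h = (-2 : ℂ) • f) (h3 : e * f - f * e = h) :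
    (((1 / 4 : ℂ) • (e * f + f * e + (1 / 2 : ℂ) • (h * h))) * e =
      e * ((1 / 4 : ℂ) • (e * f + f * e + (1 / 2 : ℂ) • (h * h)))) ∧
    (((1 / 4 : ℂ) • (e * f + f * e + (1 / 2 : ℂ) • (h * h))) * f =
      f * ((1 / 4 : ℂ) • (e * f + f * e + (1 / 2 : ℂ) • (h * h)))) ∧
    (((1 / 4 : ℂ) • (e * f + f * e + (1 / 2 : ℂ) • (h * h))) * h =
      h * ((1 / 4 : ℂ) • (e * f + f * e + (1 / 2 : ℂ) • (h * h)))) := by
  have k1 : h * e = e * h + (2 : ℂ) • e := by rw [← h1]; abel
  have k2 : h * f = f * h + (-2 : ℂ) • f := by rw [← h2]; abel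
  have k3 : e * f = f * e + h := by rw [← h3]; abel
  have z1 : ∀ z, h * (e * z) = e * (h * z) + (2 : ℂ) • (e * z) := by
    intro z; rw [← mul_assoc, k1, add_mul, mul_assoc, smul_mul_assoc]
  have z2 : ∀ z, h * (f * z) = f * (h * z) + (-2 : ℂ) • (f * z) := by
    intro z; rw [← mul_assoc, k2, add_mul, mul_assoc, smul_mul_assoc]
  have z3 : ∀ z, e * (f * z) = f * (e * z) + h * z := by
    intro z; rw [← mul_assoc, k3, add_mul, mul_assoc]
  refine ⟨?_, ?_, ?_⟩ <;>
    simp only [mul_add, add_mul, smul_mul_assoc, mul_smul_comm, smul_add, mul_assoc, k1, k2, k3,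
      z1, z2, z3] <;>
    module

end comm

theorem Cas_E : Commute Cas uE := (cas_comm uE uF uH uHE uHF uEF).1
theorem Cas_F : Commute Cas uF := (cas_comm uE uF uH uHE uHF uEF).2.1
theorem Cas_H : Commute Cas uH := (cas_comm uE uF uH uHE uHF uEF).2.2

theorem aeval_comm {u : U} (h : Commute Cas u) (q : ℂ[X]) : Commute (aeval Cas q) u := by
  induction q using Polynomial.induction_on' with
  | add p q hp hq => rw [map_add]; exact hp.add_left hq
  | monomial n a =>
    rw [aeval_monomial]
    exact (Algebra.commute_algebraMap_left a u).mul_left (h.pow_left n)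

/-- polynomials in the Casimir element and `H` -/
noncomputable def phi : ℂ[X][X] →+* U :=
  eval₂RingHom' (aeval Cas : ℂ[X] →ₐ[ℂ] U).toRingHom uH (fun q => aeval_comm Cas_H q)

theorem phi_C (q : ℂ[X]) : phi (C q) = aeval Cas q := by
  unfold phi
  simp [eval₂RingHom']

theorem phi_X : phi X = uH := by
  unfold phi
  simp [eval₂RingHom']

theorem semiconj_phi (u : U) (a : ℂ) (h1 : Commute Cas u)
    (h2 : uH * u = u * (uH + algebraMap ℂ U a)) (G : ℂ[X][X]) :
    SemiconjBy u (phi (G.comp (X + C (C a)))) (phi G) := by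
  induction G using Polynomial.induction_on with
  | C q =>
    rw [C_comp, phi_C]
    exact (aeval_comm h1 q).symm
  | add p q hp hq =>
    rw [add_comp, map_add, map_add]
    exact hp.add_right hq
  | monomial n q ih =>
    rw [pow_succ, ← mul_assoc, mul_comp, map_mul, map_mul]
    refine ih.mul_right ?_
    rw [X_comp, map_add, phi_X, phi_C, aeval_C]
    exact h2.symm

theorem uH_uE : uH * uE = uE * (uH + algebraMap ℂ U 2) := by
  have := uHE
  rw [mul_add, ← Algebra.commutes, ← Algebra.smul_def, ← this]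
  abel

theorem uH_uF : uH * uF = uF * (uH + algebraMap ℂ U (-2)) := by
  have := uHF
  rw [mul_add, ← Algebra.commutes, ← Algebra.smul_def, ← this]
  abel

theorem phi_E (G : ℂ[X][X]) : phi G * uE = uE * phi (G.comp (X + C (C 2))) :=
  (semiconj_phi uE 2 Cas_E uH_uE G).symm

theorem phi_F (G : ℂ[X][X]) : phi G * uF = uF * phi (G.comp (X + C (C (-2)))) :=
  (semiconj_phi uF (-2) Cas_F uH_uF G).symm

theorem comp_cancel (G : ℂ[X][X]) (a : ℂ) :
    (G.comp (X + C (C (-a)))).comp (X + C (C a)) = G := by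
  rw [comp_assoc]
  simp

theorem E_phi (G : ℂ[X][X]) : uE * phi G = phi (G.comp (X + C (C (-2)))) * uE := by
  rw [phi_E, comp_cancel]

theorem F_phi (G : ℂ[X][X]) : uF * phi G = phi (G.comp (X + C (C 2))) * uF := by
  have := comp_cancel G (-2)
  rw [neg_neg] at this
  rw [phi_F, this]

theorem phi_F_pow (i : ℕ) : ∀ G : ℂ[X][X], ∃ G', phi G * uF ^ i = uF ^ i * phi G' := by
  induction i with
  | zero => intro G; exact ⟨G, by simp⟩
  | succ i ih =>
    intro G
    obtain ⟨G', h⟩ := ih G
    refine ⟨G'.comp (X + C (C (-2))), ?_⟩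
    rw [pow_succ, ← mul_assoc, h, mul_assoc, phi_F, mul_assoc]

/-- the polynomial of `FE` -/
noncomputable def KF : ℂ[X][X] := C (C 2 * X) - C (C (1 / 2)) * X - C (C (1 / 4)) * (X * X)

theorem FE_phi : uF * uE = phi KF := by
  have h3 := uEF
  have e1 : uE * uF = uF * uE + uH := by rw [← h3]; abel
  unfold KF
  simp only [map_sub, map_mul, phi_C, phi_X, aeval_C, aeval_X, Algebra.algebraMap_eq_smul_one,
    smul_mul_assoc, one_mul]
  unfold Cas
  rw [e1]
  module

theorem EF_phi : uE * uF = phi (KF + X) := by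
  have h3 := uEF
  have e1 : uE * uF = uF * uE + uH := by rw [← h3]; abel
  rw [e1, map_add, phi_X, FE_phi]

/-! ### spanning -/

/-- the spanning set -/
def Sset : Set U := {u | ∃ i G, u = uF ^ i * phi G} ∪ {u | ∃ k G, u = phi G * uE ^ k}

/-- its span -/
noncomputable def N : Submodule ℂ U := Submodule.span ℂ Sset

theorem mem_F (i : ℕ) (G : ℂ[X][X]) : uF ^ i * phi G ∈ N :=
  Submodule.subset_span (Or.inl ⟨i, G, rfl⟩)

theorem mem_E (k : ℕ) (G : ℂ[X][X]) : phi G * uE ^ k ∈ N :=
  Submodule.subset_span (Or.inr ⟨k, G, rfl⟩)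

theorem closed_of (u : U) (h : ∀ s ∈ Sset, u * s ∈ N) (z : U) (hz : z ∈ N) : u * z ∈ N := by
  induction hz using Submodule.span_induction with
  | mem x hx => exact h x hx
  | zero => rw [mul_zero]; exact N.zero_mem
  | add x y _ _ hx hy => rw [mul_add]; exact N.add_mem hx hy
  | smul a x _ hx => rw [mul_smul_comm]; exact N.smul_mem a hx

theorem closed_H (z : U) (hz : z ∈ N) : uH * z ∈ N := by
  refine closed_of uH ?_ z hz
  rintro s (⟨i, G, rfl⟩ | ⟨k, G, rfl⟩)
  · obtain ⟨G', h⟩ := phi_F_pow i X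
    rw [← phi_X, ← mul_assoc, h, mul_assoc, ← map_mul]
    exact mem_F _ _
  · rw [← phi_X, ← mul_assoc, ← map_mul]
    exact mem_E _ _

theorem closed_F (z : U) (hz : z ∈ N) : uF * z ∈ N := by
  refine closed_of uF ?_ z hz
  rintro s (⟨i, G, rfl⟩ | ⟨k, G, rfl⟩)
  · rw [← mul_assoc, ← pow_succ']
    exact mem_F _ _
  · cases k with
    | zero =>
      have := mem_F 1 G
      simpa using this
    | succ k =>
      rw [← mul_assoc, F_phi, pow_succ', mul_assoc, ← mul_assoc uF, FE_phi, ← mul_assoc,
        ← map_mul]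
      exact mem_E _ _

theorem closed_E (z : U) (hz : z ∈ N) : uE * z ∈ N := by
  refine closed_of uE ?_ z hz
  rintro s (⟨i, G, rfl⟩ | ⟨k, G, rfl⟩)
  · cases i with
    | zero =>
      rw [pow_zero, one_mul, E_phi]
      have := mem_E 1 (G.comp (X + C (C (-2))))
      simpa using this
    | succ i =>
      obtain ⟨G', h⟩ := phi_F_pow i (KF + X)
      rw [pow_succ', mul_assoc, ← mul_assoc uE, EF_phi, ← mul_assoc, h, mul_assoc, ← map_mul]
      exact mem_F _ _
  · rw [← mul_assoc, E_phi, mul_assoc, ← pow_succ']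
    exact mem_E _ _

theorem closed_all (z : U) : z ∈ N := by
  let T : Subalgebra ℂ U :=
    { carrier := {u | ∀ n ∈ N, u * n ∈ N}
      mul_mem' := by
        intro a b ha hb n hn
        rw [mul_assoc]
        exact ha _ (hb n hn)
      add_mem' := by
        intro a b ha hb n hn
        rw [add_mul]
        exact N.add_mem (ha n hn) (hb n hn)
      algebraMap_mem' := by
        intro r n hn
        rw [← Algebra.smul_def]
        exact N.smul_mem r hn }
  have hι : ∀ y : sl2, UniversalEnvelopingAlgebra.ι ℂ y ∈ T := by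
    intro y n hn
    rw [sl2_decomp y, map_add, map_add, map_smul, map_smul, map_smul, add_mul, add_mul,
      smul_mul_assoc, smul_mul_assoc, smul_mul_assoc]
    exact N.add_mem (N.add_mem (N.smul_mem _ (closed_E n hn)) (N.smul_mem _ (closed_F n hn)))
      (N.smul_mem _ (closed_H n hn))
  let g0 : sl2 →ₗ⁅ℂ⁆ T :=
    { toFun := fun y => ⟨UniversalEnvelopingAlgebra.ι ℂ y, hι y⟩
      map_add' := fun x y => Subtype.ext (map_add _ x y)
      map_smul' := fun c x => Subtype.ext (map_smul _ c x)
      map_lie' := fun {x y} => Subtype.ext (LieHom.map_lie _ x y) }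
  let g : U →ₐ[ℂ] T := UniversalEnvelopingAlgebra.lift ℂ g0
  have hg : T.val.comp g = AlgHom.id ℂ U := by
    apply UniversalEnvelopingAlgebra.hom_ext
    apply LieHom.ext
    intro y
    change T.val (g (UniversalEnvelopingAlgebra.ι ℂ y)) = UniversalEnvelopingAlgebra.ι ℂ y
    have : g (UniversalEnvelopingAlgebra.ι ℂ y) = g0 y := UniversalEnvelopingAlgebra.lift_ι_apply ℂ g0 y
    rw [this]
    rfl
  have hz : z ∈ T := by
    have := (g z).2
    have h2 : T.val (g z) = z := by
      have := congrArg (fun F : U →ₐ[ℂ] U => F z) hg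
      exact this
    rw [← h2]
    exact (g z).2
  have h1 : (1 : U) ∈ N := by
    have := mem_F 0 1
    simpa using this
  have := hz 1 h1
  rwa [mul_one] at this

/-! ### normal form -/

theorem normal_form (z : U) : ∃ A B : ℕ →₀ ℂ[X][X],
    z = A.sum (fun i G => uF ^ (i + 1) * phi G) + B.sum (fun k G => phi G * uE ^ k) := by
  have hz := closed_all z
  induction hz using Submodule.span_induction with
  | mem x hx =>
    rcases hx with ⟨i, G, rfl⟩ | ⟨k, G, rfl⟩
    · cases i with
      | zero =>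
        refine ⟨0, Finsupp.single 0 G, ?_⟩
        rw [Finsupp.sum_single_index (by simp)]
        simp
      | succ i =>
        refine ⟨Finsupp.single i G, 0, ?_⟩
        rw [Finsupp.sum_single_index (by simp)]
        simp
    · refine ⟨0, Finsupp.single k G, ?_⟩
      rw [Finsupp.sum_single_index (by simp)]
      simp
  | zero => exact ⟨0, 0, by simp⟩
  | add x y _ _ hx hy =>
    obtain ⟨A, B, hx⟩ := hx
    obtain ⟨A', B', hy⟩ := hy
    refine ⟨A + A', B + B', ?_⟩
    rw [Finsupp.sum_add_index' (by simp) (by intros; rw [map_add, mul_add]),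
      Finsupp.sum_add_index' (by simp) (by intros; rw [map_add, add_mul]), hx, hy]
    abel
  | smul a x _ hx =>
    obtain ⟨A, B, hx⟩ := hx
    refine ⟨A.mapRange (fun G => C (C a) * G) (by simp), B.mapRange (fun G => C (C a) * G)
      (by simp), ?_⟩
    rw [Finsupp.sum_mapRange_index (by simp), Finsupp.sum_mapRange_index (by simp), hx, smul_add,
      Finsupp.smul_sum, Finsupp.smul_sum]
    congr 1
    · apply Finsupp.sum_congr
      intro i _
      rw [map_mul, phi_C, aeval_C, ← mul_assoc, ← Algebra.commutes, mul_assoc, Algebra.smul_def]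
    · apply Finsupp.sum_congr
      intro i _
      rw [map_mul, phi_C, aeval_C, mul_assoc, Algebra.smul_def]

end Pool.Agent.Q253.SL2
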