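import Pool.Agent.Q253.SL2.Weyl

set_option autoImplicit false
set_option linter.unusedSectionVars false

/-!
# Chord diagrams and sums over chords
-/

namespace Pool.Agent.Q253.SL2

open Finset

/-- A chord diagram with `n` chords: the circle is cut at a base point, the `2n` points are
`0, …, 2n-1` in order, and chord `i` joins the points `pt (inl i) < pt (inr i)`. -/
structure ChordDiagram (n : ℕ) where
  pt : Fin n ⊕ Fin n ≃ Fin (2 * n)
  lt : ∀ i, pt (Sum.inl i) < pt (Sum.inr i)

/-- the intersection graph: chords are adjacent when their ends interlace -/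
def ChordDiagram.graph {n : ℕ} (D : ChordDiagram n) : SimpleGraph (Fin n) where
  Adj i j := (D.pt (Sum.inl i) < D.pt (Sum.inl j) ∧ D.pt (Sum.inl j) < D.pt (Sum.inr i) ∧
      D.pt (Sum.inr i) < D.pt (Sum.inr j)) ∨
    (D.pt (Sum.inl j) < D.pt (Sum.inl i) ∧ D.pt (Sum.inl i) < D.pt (Sum.inr j) ∧
      D.pt (Sum.inr j) < D.pt (Sum.inr i))
  symm := ⟨fun _ _ h => h.symm⟩
  loopless := ⟨fun i h => by
    rcases h with h | h <;> exact lt_irrefl _ h.1⟩

section chordSum

variable {A : Type*} [Ring A] [Algebra ℂ A] {n : ℕ}

/-- The sum over all labellings `s` of the chords of the product, along the line, of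
the elements `a i (s i)` at the first end and `b i (s i)` at the second end of chord `i`. -/
def chordSum {K : Type*} [Fintype K] (D : ChordDiagram n) (a b : Fin n → K → A) : A :=
  ∑ s : Fin n → K, (List.ofFn fun p => Sum.elim (fun i => a i (s i)) (fun i => b i (s i))
    (D.pt.symm p)).prod

theorem chordSum_map {B : Type*} [Ring B] [Algebra ℂ B] (ρ : A →ₐ[ℂ] B)
    {K : Type*} [Fintype K] (D : ChordDiagram n) (a b : Fin n → K → A) :
    ρ (chordSum D a b) = chordSum D (fun i k => ρ (a i k)) (fun i k => ρ (b i k)) := by
  unfold chordSum
  rw [map_sum]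
  refine sum_congr rfl fun s _ => ?_
  rw [map_list_prod, List.map_ofFn]
  congr 2
  funext p
  rw [Function.comp]
  rcases D.pt.symm p with i | i <;> rfl

/-- replace the tensor of one chord -/
theorem chordSum_update {K : Type*} [Fintype K] [Nonempty K] (D : ChordDiagram n)
    (a b : Fin n → K → A) (i : Fin n) (a' b' : K → A)
    (h : ∀ β : A →ₗ[ℂ] A →ₗ[ℂ] A, ∑ k, β (a i k) (b i k) = ∑ k, β (a' k) (b' k)) :
    chordSum D a b = chordSum D (Function.update a i a') (Function.update b i b') := by
  have hne : D.pt (Sum.inl i) ≠ D.pt (Sum.inr i) := fun h' => by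
    have := D.pt.injective h'
    cases this
  -- the bilinear form
  let m : (Fin n → K) → Fin (2 * n) → A := fun s p =>
    Sum.elim (fun i => a i (s i)) (fun i => b i (s i)) (D.pt.symm p)
  let β : (Fin n → K) → (A →ₗ[ℂ] A →ₗ[ℂ] A) := fun s =>
    LinearMap.mk₂ ℂ (fun y z => MultilinearMap.mkPiAlgebraFin ℂ (2 * n) A
      (Function.update (Function.update (m s) (D.pt (Sum.inl i)) y) (D.pt (Sum.inr i)) z))
      (by
        intro y y' z
        rw [Function.update_comm hne, Function.update_comm hne, Function.update_comm hne,
          MultilinearMap.map_update_add])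
      (by
        intro c y z
        rw [Function.update_comm hne, Function.update_comm hne, MultilinearMap.map_update_smul])
      (by
        intro y z z'
        rw [MultilinearMap.map_update_add])
      (by
        intro c y z
        rw [MultilinearMap.map_update_smul])
  have hβ : ∀ s y z, β s y z = (List.ofFn (Function.update (Function.update (m s)
      (D.pt (Sum.inl i)) y) (D.pt (Sum.inr i)) z)).prod := by
    intro s y z
    simp only [β, LinearMap.mk₂_apply, MultilinearMap.mkPiAlgebraFin_apply]
  have key1 : ∀ s k, (List.ofFn fun p => Sum.elim (fun j => a j (Function.update s i k j))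
      (fun j => b j (Function.update s i k j)) (D.pt.symm p)).prod = β s (a i k) (b i k) := by
    intro s k
    rw [hβ]
    congr 2
    funext p
    obtain ⟨P, rfl⟩ := D.pt.surjective p
    rw [Equiv.symm_apply_apply]
    rcases P with j | j
    · rw [Function.update_of_ne (fun h' => by have := D.pt.injective h'; cases this)]
      by_cases hj : j = i
      · subst hj
        simp
      · rw [Function.update_of_ne (fun h' => hj (by have := D.pt.injective h'; cases this; rfl))]
        simp [m, hj]
    · by_cases hj : j = i
      · subst hj
        simp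
      · rw [Function.update_of_ne (fun h' => hj (by have := D.pt.injective h'; cases this; rfl)),
          Function.update_of_ne (fun h' => by have := D.pt.injective h'; cases this)]
        simp [m, hj]
  have key2 : ∀ s k, (List.ofFn fun p => Sum.elim
      (fun j => Function.update a i a' j (Function.update s i k j))
      (fun j => Function.update b i b' j (Function.update s i k j)) (D.pt.symm p)).prod =
      β s (a' k) (b' k) := by
    intro s k
    rw [hβ]
    congr 2
    funext p
    obtain ⟨P, rfl⟩ := D.pt.surjective p
    rw [Equiv.symm_apply_apply]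
    rcases P with j | j
    · rw [Function.update_of_ne (a := D.pt (Sum.inl j))
        (fun h' => by have := D.pt.injective h'; cases this)]
      by_cases hj : j = i
      · subst hj
        simp
      · rw [Function.update_of_ne (a := D.pt (Sum.inl j))
          (fun h' => hj (by have := D.pt.injective h'; cases this; rfl))]
        simp [m, hj]
    · by_cases hj : j = i
      · subst hj
        simp
      · rw [Function.update_of_ne (a := D.pt (Sum.inr j))
          (fun h' => hj (by have := D.pt.injective h'; cases this; rfl)),
          Function.update_of_ne (a := D.pt (Sum.inr j))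
          (fun h' => by have := D.pt.injective h'; cases this)]
        simp [m, hj]
  have hK : (Fintype.card K : ℂ) ≠ 0 := by
    exact_mod_cast Fintype.card_ne_zero
  have e1 : Fintype.card K • chordSum D a b = Fintype.card K •
      chordSum D (Function.update a i a') (Function.update b i b') := by
    unfold chordSum
    rw [← sum_update i, ← sum_update i]
    refine sum_congr rfl fun s _ => ?_
    simp only [key1, key2]
    exact h (β s)
  rw [← Nat.cast_smul_eq_nsmul ℂ, ← Nat.cast_smul_eq_nsmul ℂ] at e1
  have e2 := congrArg (fun z => (Fintype.card K : ℂ)⁻¹ • z) e1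
  simpa [smul_smul, inv_mul_cancel₀ hK] using e2

/-- replace the tensors of all chords -/
theorem chordSum_replace {K : Type*} [Fintype K] [Nonempty K] (D : ChordDiagram n)
    (a b a' b' : K → A)
    (h : ∀ β : A →ₗ[ℂ] A →ₗ[ℂ] A, ∑ k, β (a k) (b k) = ∑ k, β (a' k) (b' k)) :
    chordSum D (fun _ => a) (fun _ => b) = chordSum D (fun _ => a') (fun _ => b') := by
  have key : ∀ S : Finset (Fin n), chordSum D (fun _ => a) (fun _ => b) =
      chordSum D (fun i => if i ∈ S then a' else a) (fun i => if i ∈ S then b' else b) := by
    intro S
    induction S using Finset.induction_on with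
    | empty => simp
    | insert j S hj ih =>
      rw [ih, chordSum_update D _ _ j a' b' (by simpa [hj] using h)]
      congr 1
      · funext i
        by_cases hi : i = j
        · subst hi; simp
        · rw [Function.update_of_ne hi]; simp [hi]
      · funext i
        by_cases hi : i = j
        · subst hi; simp
        · rw [Function.update_of_ne hi]; simp [hi]
  rw [key univ]
  simp

/-- padding by zeros -/
theorem chordSum_pad {K K' : Type*} [Fintype K] [Fintype K'] (D : ChordDiagram n)
    (e : K → K') (he : Function.Injective e) (a b : K → A) (a' b' : K' → A)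
    (ha : ∀ k, a' (e k) = a k) (hb : ∀ k, b' (e k) = b k) (h0 : ∀ k', k' ∉ Set.range e → a' k' = 0) :
    chordSum D (fun _ => a) (fun _ => b) = chordSum D (fun _ => a') (fun _ => b') := by
  unfold chordSum
  refine Fintype.sum_of_injective (fun s : Fin n → K => fun i => e (s i)) ?_ _ _ ?_ ?_
  · intro s s' hss
    funext i
    exact he (congrFun hss i)
  · intro s' hs'
    have : ∃ i, s' i ∉ Set.range e := by
      by_contra hcon
      push Not at hcon
      choose t ht using hcon
      exact hs' ⟨t, funext ht⟩
    obtain ⟨i, hi⟩ := this
    apply List.prod_eq_zero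
    rw [List.mem_ofFn]
    exact ⟨D.pt (Sum.inl i), by simp [h0 _ hi]⟩
  · intro s
    congr 2
    funext p
    rcases D.pt.symm p with i | i
    · simp [ha]
    · simp [hb]

/-- scaling -/
theorem chordSum_smul {K : Type*} [Fintype K] (D : ChordDiagram n) (r : ℂ) (a b : K → A) :
    chordSum D (fun _ k => r • a k) (fun _ => b) = r ^ n • chordSum D (fun _ => a) (fun _ => b) := by
  unfold chordSum
  rw [smul_sum]
  refine sum_congr rfl fun s _ => ?_
  rw [← MultilinearMap.mkPiAlgebraFin_apply (R := ℂ), ← MultilinearMap.mkPiAlgebraFin_apply (R := ℂ)]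
  have h1 : (fun p => Sum.elim (fun i => r • a (s i)) (fun i => b (s i)) (D.pt.symm p)) =
      fun p => (Sum.elim (fun _ => r) (fun _ => (1 : ℂ)) (D.pt.symm p)) •
        Sum.elim (fun i => a (s i)) (fun i => b (s i)) (D.pt.symm p) := by
    funext p
    rcases D.pt.symm p with i | i
    · rfl
    · simp
  rw [h1, MultilinearMap.map_smul_univ]
  congr 1
  rw [Equiv.prod_comp D.pt.symm (fun P => Sum.elim (fun _ => r) (fun _ => (1 : ℂ)) P),
    Fintype.prod_sum_type]
  simp

end chordSum

end Pool.Agent.Q253.SL2
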