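import Pool.Agent.Q253.SL2.Diagram

set_option autoImplicit false
set_option linter.unusedSectionVars false

/-!
# The doubled words of a chord diagram
-/

namespace Pool.Agent.Q253.SL2

open Finset

/-! ### pair sums of flattened lists -/

theorem prs_flatten {L : Type*} (f g : L → ZMod 2) (l : List (List L)) :
    prs f g l.flatten = prs (fun c => (c.map f).sum) (fun c => (c.map g).sum) l +
      (l.map (prs f g)).sum := by
  induction l with
  | nil => rfl
  | cons c l ih =>
    rw [List.flatten_cons, prs_append, ih]
    have : (l.flatten.map g).sum = (l.map fun c => (c.map g).sum).sum := by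
      rw [List.map_flatten, List.sum_flatten, List.map_map]
      rfl
    rw [this]
    simp only [prs, List.map_cons, List.sum_cons]
    ring

theorem prs_ofFn {L : Type*} (f g : L → ZMod 2) : ∀ (n : ℕ) (v : Fin n → L),
    prs f g (List.ofFn v) = ∑ p, ∑ q, if p < q then f (v p) * g (v q) else 0
  | 0, v => by simp [prs]
  | n + 1, v => by
    rw [List.ofFn_succ, prs, prs_ofFn f g n, Fin.sum_univ_succ]
    congr 1
    · rw [Fin.sum_univ_succ, if_neg (lt_irrefl _), zero_add, List.map_ofFn, List.sum_ofFn,
        mul_sum]
      refine sum_congr rfl fun q _ => ?_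
      rw [if_pos (Fin.succ_pos q)]
      rfl
    · refine sum_congr rfl fun p _ => ?_
      rw [Fin.sum_univ_succ, if_neg (Fin.not_lt_zero _), zero_add]
      refine sum_congr rfl fun q _ => ?_
      simp only [Fin.succ_lt_succ_iff]

section

variable {n : ℕ} (D : ChordDiagram n)

/-- labels: two copies of each chord -/
abbrev Lab (n : ℕ) := Fin n ×ₗ Bool

/-- the block of letters at a point -/
def block (τ : Fin n → Bool) : Fin n ⊕ Fin n → List (Lab n × Bool)
  | Sum.inl i => [(toLex (i, false), false), (toLex (i, true), false)]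
  | Sum.inr i => if τ i then [(toLex (i, true), true), (toLex (i, false), true)]
      else [(toLex (i, false), true), (toLex (i, true), true)]

/-- the doubled word -/
def word (τ : Fin n → Bool) : List (Lab n × Bool) :=
  (List.ofFn fun p => block τ (D.pt.symm p)).flatten

theorem block_length (τ : Fin n → Bool) (P : Fin n ⊕ Fin n) : (block τ P).length = 2 := by
  rcases P with i | i
  · rfl
  · unfold block
    by_cases h : τ i = true <;> simp [h]

theorem word_length (τ : Fin n → Bool) : (word D τ).length = 2 * (2 * n) := by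
  unfold word
  rw [List.length_flatten, List.map_ofFn, List.sum_ofFn]
  simp only [Function.comp, block_length]
  simp [mul_comm]

theorem word_mem (τ : Fin n → Bool) (c : Lab n × Bool) : c ∈ word D τ := by
  obtain ⟨l, e⟩ := c
  obtain ⟨⟨i, a⟩, rfl⟩ := toLex.surjective l
  unfold word
  rw [List.mem_flatten]
  cases e
  · refine ⟨block τ (Sum.inl i), ?_, ?_⟩
    · rw [List.mem_ofFn]
      exact ⟨D.pt (Sum.inl i), by simp⟩
    · unfold block
      cases a <;> simp
  · refine ⟨block τ (Sum.inr i), ?_, ?_⟩
    · rw [List.mem_ofFn]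
      exact ⟨D.pt (Sum.inr i), by simp⟩
    · unfold block
      by_cases h : τ i = true <;> cases a <;> simp [h]

theorem word_valid (τ : Fin n → Bool) : Valid (word D τ) := by
  refine ⟨?_, fun c _ => word_mem D τ _⟩
  have h1 : (word D τ).toFinset = univ := by
    ext c
    simp [word_mem D τ c]
  have h2 : (word D τ).toFinset.card = (word D τ).length := by
    rw [h1, word_length, card_univ, Fintype.card_prod, Fintype.card_bool]
    have : Fintype.card (Lab n) = n * 2 := by
      rw [Fintype.card_lex, Fintype.card_prod, Fintype.card_fin, Fintype.card_bool]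
    rw [this]
    ring
  exact Multiset.coe_nodup.mp
    ((Multiset.toFinset_card_eq_card_iff_nodup (m := Multiset.ofList (word D τ))).mp h2)

/-- indicator that the point `P` is an end of chord `i` -/
noncomputable def isEnd (i : Fin n) : Fin n ⊕ Fin n → ZMod 2 :=
  Sum.elim (fun j => ind (j = i)) (fun j => ind (j = i))

theorem block_lab (τ : Fin n → Bool) (i : Fin n) (a : Bool) (P : Fin n ⊕ Fin n) :
    ((block τ P).map (lab (toLex (i, a)))).sum = isEnd i P := by
  have key : ∀ (j : Fin n) (c : Bool) (e : Bool), lab (toLex (i, a)) ((toLex (j, c) : Lab n), e) =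
      ind (j = i ∧ c = a) := by
    intro j c e
    unfold lab
    apply ind_congr
    simp
  have key2 : ∀ j : Fin n, ind (j = i ∧ false = a) + ind (j = i ∧ true = a) = ind (j = i) := by
    intro j
    by_cases h : j = i <;> cases a <;> simp [h]
  rcases P with j | j
  · simp only [block, List.map_cons, List.map_nil, List.sum_cons, List.sum_nil, key, add_zero,
      isEnd, Sum.elim_inl, key2]
  · by_cases h : τ j = true
    · simp only [block, h, if_true, List.map_cons, List.map_nil, List.sum_cons, List.sum_nil, key,
        add_zero, isEnd, Sum.elim_inr]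
      rw [add_comm, key2]
    · simp only [block, if_neg h, List.map_cons, List.map_nil, List.sum_cons, List.sum_nil,
        key, add_zero, isEnd, Sum.elim_inr, key2]

/-- number of pairs of points, the first on chord `i`, the second on chord `j` -/
noncomputable def cross (i j : Fin n) : ZMod 2 :=
  ind (D.pt (Sum.inl i) < D.pt (Sum.inl j)) + ind (D.pt (Sum.inl i) < D.pt (Sum.inr j)) +
    (ind (D.pt (Sum.inr i) < D.pt (Sum.inl j)) + ind (D.pt (Sum.inr i) < D.pt (Sum.inr j)))

theorem sum_points (F : Fin n ⊕ Fin n → Fin n ⊕ Fin n → ZMod 2) :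
    (∑ p, ∑ q, if p < q then F (D.pt.symm p) (D.pt.symm q) else 0) =
      ∑ P, ∑ Q, ind (D.pt P < D.pt Q) * F P Q := by
  rw [← Equiv.sum_comp D.pt]
  refine sum_congr rfl fun P _ => ?_
  rw [← Equiv.sum_comp D.pt]
  refine sum_congr rfl fun Q _ => ?_
  rw [Equiv.symm_apply_apply, Equiv.symm_apply_apply]
  by_cases h : D.pt P < D.pt Q
  · rw [if_pos h, ind_pos h, one_mul]
  · rw [if_neg h, ind_neg h, zero_mul]

theorem sum_isEnd (i : Fin n) (F : Fin n ⊕ Fin n → ZMod 2) :
    ∑ P, isEnd i P * F P = F (Sum.inl i) + F (Sum.inr i) := by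
  rw [Fintype.sum_sum_type]
  unfold isEnd
  simp only [Sum.elim_inl, Sum.elim_inr]
  congr 1
  · rw [Finset.sum_eq_single i]
    · simp
    · intro j _ hj
      rw [ind_neg hj, zero_mul]
    · simp
  · rw [Finset.sum_eq_single i]
    · simp
    · intro j _ hj
      rw [ind_neg hj, zero_mul]
    · simp

theorem outer (τ : Fin n → Bool) (i j : Fin n) (a c : Bool) :
    prs (fun l : List (Lab n × Bool) => (l.map (lab (toLex (i, a)))).sum)
      (fun l => (l.map (lab (toLex (j, c)))).sum)
      (List.ofFn fun p => block τ (D.pt.symm p)) = cross D i j := by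
  rw [prs_ofFn]
  simp only [block_lab]
  rw [sum_points D (fun P Q => isEnd i P * isEnd j Q)]
  have e1 : ∀ P, ∑ Q, ind (D.pt P < D.pt Q) * (isEnd i P * isEnd j Q) =
      isEnd i P * (ind (D.pt P < D.pt (Sum.inl j)) + ind (D.pt P < D.pt (Sum.inr j))) := by
    intro P
    rw [← sum_isEnd j (fun Q => ind (D.pt P < D.pt Q)), mul_sum]
    refine sum_congr rfl fun Q _ => ?_
    ring
  simp only [e1]
  rw [sum_isEnd]
  rfl

theorem cross_self (i : Fin n) : cross D i i = 1 := by
  unfold cross
  rw [ind_neg (lt_irrefl _), ind_neg (lt_irrefl _), ind_pos (D.lt i),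
    ind_neg (not_lt.mpr (D.lt i).le)]
  decide

theorem cross_ad (i j : Fin n) (hij : i ≠ j) : cross D i j = ad D.graph i j := by
  have h1 := D.lt i
  have h2 := D.lt j
  have n1 : D.pt (Sum.inl i) ≠ D.pt (Sum.inl j) := fun h => hij (by
    have := D.pt.injective h; cases this; rfl)
  have n2 : D.pt (Sum.inr i) ≠ D.pt (Sum.inr j) := fun h => hij (by
    have := D.pt.injective h; cases this; rfl)
  have n3 : D.pt (Sum.inl i) ≠ D.pt (Sum.inr j) := fun h => by
    have := D.pt.injective h; cases this
  have n4 : D.pt (Sum.inr i) ≠ D.pt (Sum.inl j) := fun h => by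
    have := D.pt.injective h; cases this
  unfold cross ad ChordDiagram.graph
  dsimp only
  generalize D.pt (Sum.inl i) = i1 at *
  generalize D.pt (Sum.inl j) = j1 at *
  generalize D.pt (Sum.inr i) = i2 at *
  generalize D.pt (Sum.inr j) = j2 at *
  rcases lt_or_gt_of_ne n1 with a1 | a1 <;> rcases lt_or_gt_of_ne n2 with a2 | a2 <;>
    rcases lt_or_gt_of_ne n3 with a3 | a3 <;> rcases lt_or_gt_of_ne n4 with a4 | a4 <;>
    first
    | (exfalso; omega)
    | (simp [a1, a2, a3, a4, not_lt.mpr a1.le, not_lt.mpr a2.le, not_lt.mpr a3.le,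
        not_lt.mpr a4.le, one_add_one'])

theorem inner_sum (τ : Fin n → Bool) (f g : Lab n × Bool → ZMod 2) :
    ((List.ofFn fun p => block τ (D.pt.symm p)).map (prs f g)).sum =
      ∑ P, prs f g (block τ P) := by
  rw [List.map_ofFn, List.sum_ofFn]
  exact Equiv.sum_comp D.pt.symm (fun P => prs f g (block τ P))

theorem Xw_word (τ : Fin n → Bool) (i j : Fin n) (a c : Bool) (hij : i ≠ j) :
    Xw (word D τ) (toLex (i, a)) (toLex (j, c)) = ad D.graph i j := by
  unfold Xw word
  rw [prs_flatten, outer, inner_sum, cross_ad D i j hij]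
  have : ∑ P, prs (lab (toLex (i, a))) (lab (toLex (j, c))) (block τ P) = 0 := by
    apply sum_eq_zero
    intro P _
    rcases P with k | k
    · unfold block lab
      by_cases h : k = i
      · subst h; simp [prs, hij]
      · simp [prs, h]
    · unfold block lab
      by_cases h : k = i
      · subst h; by_cases ht : τ k = true <;> simp [prs, hij, ht]
      · by_cases ht : τ k = true <;> simp [prs, h, ht]
  rw [this, add_zero]

theorem Xw_word_self (τ : Fin n → Bool) (i : Fin n) :
    Xw (word D τ) (toLex (i, false)) (toLex (i, true)) = 1 + ind (τ i = true) := by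
  unfold Xw word
  rw [prs_flatten, outer, inner_sum, cross_self D i]
  congr 1
  rw [Fintype.sum_sum_type, Finset.sum_eq_single i, Finset.sum_eq_single i]
  · unfold block lab
    by_cases ht : τ i = true <;> simp [prs, ht, one_add_one']
  · intro k _ hk
    unfold block lab
    by_cases ht : τ k = true <;> simp [prs, ht, hk]
  · simp
  · intro k _ hk
    unfold block lab
    simp [prs, hk]
  · simp

theorem Bw_word (τ : Fin n → Bool) (l : Lab n) : Bw (word D τ) l = 0 := by
  obtain ⟨⟨i, a⟩, rfl⟩ := toLex.surjective l
  unfold Bw word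
  rw [prs_flatten, inner_sum, prs_ofFn]
  have e1 : ∀ P, ((block τ P).map fun c => ind (c = ((toLex (i, a) : Lab n), true))).sum =
      Sum.elim (fun _ => 0) (fun j => ind (j = i)) P := by
    intro P
    rcases P with j | j
    · simp [block]
    · by_cases hj : j = i
      · subst hj
        by_cases ht : τ j = true <;> cases a <;> simp [block, ht]
      · by_cases ht : τ j = true <;> simp [block, ht, hj]
  have e2 : ∀ P, ((block τ P).map fun c => ind (c = ((toLex (i, a) : Lab n), false))).sum =
      Sum.elim (fun j => ind (j = i)) (fun _ => 0) P := by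
    intro P
    rcases P with j | j
    · by_cases hj : j = i
      · subst hj
        cases a <;> simp [block]
      · simp [block, hj]
    · by_cases ht : τ j = true <;> simp [block, ht]
  simp only [e1, e2]
  rw [sum_points D (fun P Q => Sum.elim (fun _ => 0) (fun j => ind (j = i)) P *
    Sum.elim (fun j => ind (j = i)) (fun _ => 0) Q)]
  have e3 : ∑ P, ∑ Q, ind (D.pt P < D.pt Q) * (Sum.elim (fun _ => 0) (fun j => ind (j = i)) P *
    Sum.elim (fun j => ind (j = i)) (fun _ => (0 : ZMod 2)) Q) = 0 := by
    apply sum_eq_zero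
    intro P _
    apply sum_eq_zero
    intro Q _
    rcases P with p | p
    · simp
    · rcases Q with q | q
      · simp only [Sum.elim_inl, Sum.elim_inr]
        by_cases hp : p = i
        · by_cases hq : q = i
          · rw [hp, hq, ind_neg (not_lt.mpr (D.lt i).le), zero_mul]
          · rw [ind_neg hq, mul_zero, mul_zero]
        · rw [ind_neg hp, zero_mul, mul_zero]
      · simp
  rw [e3, zero_add]
  apply sum_eq_zero
  intro P _
  rcases P with j | j
  · simp [block, prs]
  · by_cases ht : τ j = true <;> simp [block, prs, ht]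

end

end Pool.Agent.Q253.SL2
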