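import Pool.Agent.Q253.SL2.Osc

set_option autoImplicit false
set_option linter.unusedSectionVars false

/-!
# The enveloping algebra of `sl(2)` and its oscillator representation
-/

namespace Pool.Agent.Q253.SL2

open Finset

attribute [local instance 100] LieRing.ofAssociativeRing

/-- the Lie algebra `sl(2)` over `ℂ` -/
abbrev sl2 := LieAlgebra.SpecialLinear.sl (Fin 2) ℂ

theorem mem_sl2 (M : Matrix (Fin 2) (Fin 2) ℂ) : M ∈ sl2 ↔ M.trace = 0 := Iff.rfl

/-- the matrix `E` -/
def sE : sl2 := ⟨!![0, 1; 0, 0], by rw [mem_sl2]; simp [Matrix.trace_fin_two]⟩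

/-- the matrix `F` -/
def sF : sl2 := ⟨!![0, 0; 1, 0], by rw [mem_sl2]; simp [Matrix.trace_fin_two]⟩

/-- the matrix `H` -/
def sH : sl2 := ⟨!![1, 0; 0, -1], by rw [mem_sl2]; simp [Matrix.trace_fin_two]⟩

theorem sl2_trace (M : sl2) : M.1 1 1 = - M.1 0 0 := by
  have h := (mem_sl2 M.1).mp M.2
  rw [Matrix.trace_fin_two] at h
  linear_combination h

theorem sl2_decomp (M : sl2) : M = M.1 0 1 • sE + M.1 1 0 • sF + M.1 0 0 • sH := by
  apply Subtype.ext
  ext i j
  have := sl2_trace M
  fin_cases i <;> fin_cases j <;> simp [sE, sF, sH, this]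

theorem sl2_HE : ⁅sH, sE⁆ = (2 : ℂ) • sE := by
  apply Subtype.ext
  ext i j
  fin_cases i <;> fin_cases j <;> simp [sE, sH, Ring.lie_def] <;> norm_num

theorem sl2_HF : ⁅sH, sF⁆ = (-2 : ℂ) • sF := by
  apply Subtype.ext
  ext i j
  fin_cases i <;> fin_cases j <;> simp [sF, sH, Ring.lie_def] <;> norm_num

theorem sl2_EF : ⁅sE, sF⁆ = sH := by
  apply Subtype.ext
  ext i j
  fin_cases i <;> fin_cases j <;> simp [sE, sF, sH, Ring.lie_def]

section hom

variable {A : Type*} [Ring A] [Algebra ℂ A]

/-- the Lie algebra map given by three elements satisfying the `sl(2)` relations -/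
noncomputable def homOf (e f h : A) (h1 : h * e - e * h = (2 : ℂ) • e)
    (h2 : h * f - f * h = (-2 : ℂ) • f) (h3 : e * f - f * e = h) : sl2 →ₗ⁅ℂ⁆ A where
  toFun M := M.1 0 1 • e + M.1 1 0 • f + M.1 0 0 • h
  map_add' M N := by
    have k : ∀ i j, (M + N : sl2).1 i j = M.1 i j + N.1 i j := fun _ _ => rfl
    rw [k, k, k]
    module
  map_smul' c M := by
    have k : ∀ i j, (c • M : sl2).1 i j = c * M.1 i j := fun _ _ => rfl
    rw [k, k, k, RingHom.id_apply]
    module
  map_lie' {M N} := by
    have tM := sl2_trace M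
    have tN := sl2_trace N
    have e1 : (⁅M, N⁆ : sl2).1 = M.1 * N.1 - N.1 * M.1 := rfl
    simp only [e1, Matrix.sub_apply, Matrix.mul_apply, Fin.sum_univ_two, tM, tN]
    rw [LieRing.of_associative_ring_bracket]
    have k1 : h * e = e * h + (2 : ℂ) • e := by rw [← h1]; abel
    have k2 : h * f = f * h + (-2 : ℂ) • f := by rw [← h2]; abel
    have k3 : e * f = f * e + h := by rw [← h3]; abel
    simp only [mul_add, add_mul, smul_mul_assoc, mul_smul_comm, k1, k2, k3]
    module

/-- the algebra map from the enveloping algebra given by the `sl(2)` relations -/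
noncomputable def algOf (e f h : A) (h1 : h * e - e * h = (2 : ℂ) • e)
    (h2 : h * f - f * h = (-2 : ℂ) • f) (h3 : e * f - f * e = h) :
    UniversalEnvelopingAlgebra ℂ sl2 →ₐ[ℂ] A :=
  UniversalEnvelopingAlgebra.lift ℂ (homOf e f h h1 h2 h3)

end hom

/-- the enveloping algebra -/
abbrev U := UniversalEnvelopingAlgebra ℂ sl2

/-- the generators of the enveloping algebra -/
noncomputable def uE : U := UniversalEnvelopingAlgebra.ι ℂ sE
/-- the generators of the enveloping algebra -/
noncomputable def uF : U := UniversalEnvelopingAlgebra.ι ℂ sF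
/-- the generators of the enveloping algebra -/
noncomputable def uH : U := UniversalEnvelopingAlgebra.ι ℂ sH

theorem uHE : uH * uE - uE * uH = (2 : ℂ) • uE := by
  unfold uH uE
  rw [← LieRing.of_associative_ring_bracket, ← LieHom.map_lie, sl2_HE, map_smul]

theorem uHF : uH * uF - uF * uH = (-2 : ℂ) • uF := by
  unfold uH uF
  rw [← LieRing.of_associative_ring_bracket, ← LieHom.map_lie, sl2_HF, map_smul]

theorem uEF : uE * uF - uF * uE = uH := by
  unfold uH uE uF
  rw [← LieRing.of_associative_ring_bracket, ← LieHom.map_lie, sl2_EF]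

section
variable {A : Type*} [Ring A] [Algebra ℂ A] (e f h : A) (h1 : h * e - e * h = (2 : ℂ) • e)
    (h2 : h * f - f * h = (-2 : ℂ) • f) (h3 : e * f - f * e = h)

theorem algOf_uE : algOf e f h h1 h2 h3 uE = e := by
  unfold algOf uE
  rw [UniversalEnvelopingAlgebra.lift_ι_apply]
  change sE.1 0 1 • e + sE.1 1 0 • f + sE.1 0 0 • h = e
  simp [sE]

theorem algOf_uF : algOf e f h h1 h2 h3 uF = f := by
  unfold algOf uF
  rw [UniversalEnvelopingAlgebra.lift_ι_apply]
  change sF.1 0 1 • e + sF.1 1 0 • f + sF.1 0 0 • h = f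
  simp [sF]

theorem algOf_uH : algOf e f h h1 h2 h3 uH = h := by
  unfold algOf uH
  rw [UniversalEnvelopingAlgebra.lift_ι_apply]
  change sH.1 0 1 • e + sH.1 1 0 • f + sH.1 0 0 • h = h
  simp [sH]

end

/-- the Casimir element `(EF + FE + H²/2)/4` -/
noncomputable def Cas : U := (1 / 4 : ℂ) • (uE * uF + uF * uE + (1 / 2 : ℂ) • (uH * uH))

/-- `sl(2)` invariant of a chord diagram in the enveloping algebra -/
noncomputable def Om {n : ℕ} (D : ChordDiagram n) : U :=
  chordSum D (fun _ => casA uE uF uH) (fun _ => casB uE uF uH)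

/-! ### the oscillator representation -/

/-- multiplication by `X` on polynomials -/
noncomputable def opX : Module.End ℂ (Polynomial ℂ) := LinearMap.mulLeft ℂ Polynomial.X

/-- differentiation -/
noncomputable def opD : Module.End ℂ (Polynomial ℂ) := Polynomial.derivative

theorem opDX : opD * opX = opX * opD + 1 := by
  apply LinearMap.ext
  intro p
  simp only [opD, opX, Module.End.mul_apply, LinearMap.mulLeft_apply, LinearMap.add_apply,
    Module.End.one_apply, Polynomial.derivative_mul, Polynomial.derivative_X, one_mul]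
  ring

section osc
variable {A : Type*} [Ring A] [Algebra ℂ A] (x d : A)

theorem osc_rel (hxd : d * x = x * d + 1) :
    let e : A := (1 / 2 : ℂ) • (x * x)
    let f : A := (-1 / 2 : ℂ) • (d * d)
    let h : A := (1 / 2 : ℂ) • (x * d + d * x)
    (h * e - e * h = (2 : ℂ) • e) ∧ (h * f - f * h = (-2 : ℂ) • f) ∧ (e * f - f * e = h) ∧
      (1 / 4 : ℂ) • (e * f + f * e + (1 / 2 : ℂ) • (h * h)) = algebraMap ℂ A (-3 / 32) := by
  have hz : ∀ z : A, d * (x * z) = x * (d * z) + z := by
    intro z
    rw [← mul_assoc, hxd, add_mul, one_mul, mul_assoc]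
  rw [Algebra.algebraMap_eq_smul_one]
  refine ⟨?_, ?_, ?_, ?_⟩ <;>
    simp only [mul_add, add_mul, smul_mul_assoc, mul_smul_comm, smul_add, mul_assoc, hxd,
      hz, mul_one, one_mul] <;>
    module

end osc

/-- the oscillator representation of the enveloping algebra on polynomials -/
noncomputable def osc : U →ₐ[ℂ] Module.End ℂ (Polynomial ℂ) :=
  algOf ((1 / 2 : ℂ) • (opX * opX)) ((-1 / 2 : ℂ) • (opD * opD)) ((1 / 2 : ℂ) • (opX * opD + opD * opX))
    (osc_rel opX opD opDX).1 (osc_rel opX opD opDX).2.1 (osc_rel opX opD opDX).2.2.1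

theorem osc_Cas : osc Cas = algebraMap ℂ _ (-3 / 32) := by
  unfold Cas osc
  rw [map_smul, map_add, map_add, map_smul, map_mul, map_mul, map_mul, algOf_uE, algOf_uF, algOf_uH]
  exact (osc_rel opX opD opDX).2.2.2

theorem osc_Om {n : ℕ} (D : ChordDiagram n) :
    osc (Om D) = algebraMap ℂ _ ((-1 / 64) ^ n * val (S D.graph)) := by
  rw [← osc_eval opX opD D opDX]
  unfold Om
  rw [chordSum_map]
  congr 1
  · funext _ k
    fin_cases k
    · simp [casA, osc, algOf_uE]
    · simp [casA, osc, algOf_uF]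
    · simp [casA, osc, algOf_uH]
  · funext _ k
    fin_cases k
    · simp [casB, osc, algOf_uF]
    · simp [casB, osc, algOf_uE]
    · simp [casB, osc, algOf_uH]

theorem eval_of_aeval {n : ℕ} (D : ChordDiagram n) (p : Polynomial ℂ)
    (hp : Polynomial.aeval Cas p = Om D) :
    p.eval (-3 / 32) = (-1 / 64) ^ n * val (S D.graph) := by
  have h1 := congrArg osc hp
  rw [← Polynomial.aeval_algHom_apply, osc_Cas, osc_Om, Polynomial.aeval_algebraMap_apply] at h1
  have h2 := (algebraMap ℂ (Module.End ℂ (Polynomial ℂ))).injective h1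
  rw [← h2]
  rfl

end Pool.Agent.Q253.SL2
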