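import Pool.Agent.Q253.SL2.Poly

set_option autoImplicit false

/-!
# Signs, sums over unordered pairs, the graph sums and the 4-term relation
-/

namespace Pool.Agent.Q253.SL2

open Finset

/-- the sign character of `ZMod 2` -/
noncomputable def sg (x : ZMod 2) : ℂ := if x = 0 then 1 else -1

@[simp] theorem sg_zero : sg 0 = 1 := by simp [sg]
@[simp] theorem sg_one : sg 1 = -1 := by simp [sg]

theorem zmod2_cases (x : ZMod 2) : x = 0 ∨ x = 1 := by
  revert x; decide

theorem zmod2_add_self (x : ZMod 2) : x + x = 0 := by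
  revert x; decide

theorem sg_add (x y : ZMod 2) : sg (x + y) = sg x * sg y := by
  rcases zmod2_cases x with rfl | rfl <;> rcases zmod2_cases y with rfl | rfl
  · simp
  · simp
  · simp
  · rw [show (1 : ZMod 2) + 1 = 0 by decide]; simp

theorem sg_mul_self (x : ZMod 2) : sg x * sg x = 1 := by
  rw [← sg_add, zmod2_add_self, sg_zero]

section T

variable {κ : Type*} [Fintype κ] [LinearOrder κ]

/-- sum over unordered pairs of distinct elements -/
def T (f : κ → κ → ZMod 2) : ZMod 2 := ∑ p, ∑ q, if p < q then f p q else 0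

theorem T_add (f g : κ → κ → ZMod 2) : T (fun p q => f p q + g p q) = T f + T g := by
  unfold T
  rw [← sum_add_distrib]
  refine sum_congr rfl fun p _ => ?_
  rw [← sum_add_distrib]
  refine sum_congr rfl fun q _ => ?_
  split_ifs <;> simp

theorem T_congr {f g : κ → κ → ZMod 2} (h : ∀ p q, p ≠ q → f p q = g p q) : T f = T g := by
  unfold T
  refine sum_congr rfl fun p _ => sum_congr rfl fun q _ => ?_
  split_ifs with hpq
  · exact h p q (ne_of_lt hpq)
  · rfl

theorem T_zero : T (fun _ _ : κ => (0 : ZMod 2)) = 0 := by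
  unfold T; simp

/-- peel off one element -/
theorem T_peel (f : κ → κ → ZMod 2) (hf : ∀ p q, f p q = f q p) (a : κ) :
    T f = T (fun p q => if p = a ∨ q = a then 0 else f p q) +
      ∑ l, if l = a then 0 else f a l := by
  have h1 : T f = T (fun p q => if p = a ∨ q = a then 0 else f p q) +
      T (fun p q => if p = a ∨ q = a then f p q else 0) := by
    rw [← T_add]
    refine T_congr fun p q _ => ?_
    split_ifs <;> simp
  rw [h1]
  congr 1
  have h2 : T (fun p q => if p = a ∨ q = a then f p q else 0) =
      ∑ p, ∑ q, ((if p = a then (if a < q then f a q else 0) else 0) +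
        (if q = a then (if p < a then f a p else 0) else 0)) := by
    unfold T
    refine sum_congr rfl fun p _ => sum_congr rfl fun q _ => ?_
    by_cases hp : p = a <;> by_cases hq : q = a
    · subst hp; subst hq; simp
    · subst hp; simp [hq]
    · subst hq; simp [hp, hf p q]
    · simp [hp, hq]
  rw [h2]
  simp only [sum_add_distrib]
  have h3 : ∑ p, ∑ q, (if p = a then (if a < q then f a q else 0) else (0 : ZMod 2)) =
      ∑ q, if a < q then f a q else 0 := by
    rw [Finset.sum_eq_single a]
    · simp
    · intro b _ hb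
      simp [hb]
    · simp
  have h4 : ∑ p, ∑ q, (if q = a then (if p < a then f a p else 0) else (0 : ZMod 2)) =
      ∑ p, if p < a then f a p else 0 := by
    refine sum_congr rfl fun p _ => ?_
    rw [Finset.sum_eq_single a]
    · simp
    · intro b _ hb
      simp [hb]
    · simp
  rw [h3, h4, ← sum_add_distrib]
  refine sum_congr rfl fun l _ => ?_
  rcases lt_trichotomy a l with h | h | h
  · simp [h, not_lt.mpr h.le, ne_of_gt h]
  · subst h; simp
  · simp [h, not_lt.mpr h.le, ne_of_lt h]

/-- the two row lemma -/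
theorem T_two (f : κ → κ → ZMod 2) (hf : ∀ p q, f p q = f q p) (i j : κ) (hij : i ≠ j)
    (h0 : ∀ p q, p ≠ q → p ≠ i → p ≠ j → q ≠ i → q ≠ j → f p q = 0)
    (h1 : ∀ l, l ≠ i → l ≠ j → f i l = f j l) : T f = f i j := by
  rw [T_peel f hf i]
  rw [T_peel (fun p q => if p = i ∨ q = i then 0 else f p q) ?_ j]
  · have e1 : T (fun p q => if p = j ∨ q = j then 0 else
        (fun p q => if p = i ∨ q = i then 0 else f p q) p q) = 0 := by
      refine (T_congr fun p q hpq => ?_).trans (T_zero (κ := κ))
      dsimp only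
      split_ifs with h h'
      · rfl
      · rfl
      · push Not at h h'
        exact h0 p q hpq h'.1 h.1 h'.2 h.2
    rw [e1, zero_add, ← sum_add_distrib, Finset.sum_eq_single j]
    · simp [hij.symm]
    · intro l _ hl
      by_cases hli : l = i
      · simp [hli]
      · simp only [hl, hli, hij.symm, if_false, or_false]
        rw [h1 l hli hl, zmod2_add_self]
    · simp
  · intro p q
    simp only [or_comm (a := p = i), hf p q]

theorem T_eq_of_two (f g : κ → κ → ZMod 2) (hf : ∀ p q, f p q = f q p)
    (hg : ∀ p q, g p q = g q p) (i j : κ) (hij : i ≠ j)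
    (h0 : ∀ p q, p ≠ q → p ≠ i → p ≠ j → q ≠ i → q ≠ j → f p q = g p q)
    (h1 : ∀ l, l ≠ i → l ≠ j → f i l + g i l = f j l + g j l) :
    T f + T g = f i j + g i j := by
  rw [← T_add]
  rw [T_two (fun p q => f p q + g p q) (fun p q => by rw [hf, hg]) i j hij _ h1]
  intro p q h h1 h2 h3 h4
  rw [h0 p q h h1 h2 h3 h4, zmod2_add_self]

theorem T_comp {κ' : Type*} [Fintype κ'] [LinearOrder κ'] (σ : κ ≃ κ') (f : κ' → κ' → ZMod 2)
    (hf : ∀ p q, f p q = f q p) : T (fun p q => f (σ p) (σ q)) = T f := by
  have e1 : T (fun p q => f (σ p) (σ q)) =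
      ∑ p', ∑ q', if σ.symm p' < σ.symm q' then f p' q' else 0 := by
    unfold T
    rw [← Equiv.sum_comp σ]
    refine sum_congr rfl fun p _ => ?_
    rw [← Equiv.sum_comp σ]
    refine sum_congr rfl fun q _ => ?_
    simp
  have e2 : T (fun p q => f (σ p) (σ q)) + T f = 0 := by
    rw [e1]
    unfold T
    simp only [← sum_add_distrib]
    rw [← Finset.sum_product']
    refine Finset.sum_involution (fun x _ => (x.2, x.1)) ?_ ?_ ?_ ?_
    · rintro ⟨p, q⟩ _
      dsimp only
      by_cases hpq : p = q
      · subst hpq; simp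
      · have hs : σ.symm p ≠ σ.symm q := fun h => hpq (σ.symm.injective h)
        rcases lt_or_gt_of_ne hpq with h | h <;> rcases lt_or_gt_of_ne hs with h' | h' <;>
          simp [h, h', not_lt.mpr h.le, not_lt.mpr h'.le, hf q p, zmod2_add_self]
    · rintro ⟨p, q⟩ _ hne h
      apply hne
      simp only [Prod.mk.injEq] at h
      obtain ⟨h1, _⟩ := h
      subst h1
      simp
    · rintro ⟨p, q⟩ _
      simp
    · rintro ⟨p, q⟩ _
      rfl
  have : T (fun p q => f (σ p) (σ q)) = T (fun p q => f (σ p) (σ q)) + T f + T f := by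
    rw [add_assoc, zmod2_add_self, add_zero]
  rw [this, e2, zero_add]

end T

section graph

open Classical in
/-- the indicator of a proposition in `ZMod 2` -/
noncomputable def ind (P : Prop) : ZMod 2 := if P then 1 else 0

theorem ind_pos {P : Prop} (h : P) : ind P = 1 := by simp [ind, h]
theorem ind_neg {P : Prop} (h : ¬ P) : ind P = 0 := by simp [ind, h]
@[simp] theorem ind_true : ind True = 1 := ind_pos trivial
@[simp] theorem ind_false : ind False = 0 := ind_neg id

theorem ind_congr {P Q : Prop} (h : P ↔ Q) : ind P = ind Q := by rw [propext h]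

/-- parity of the number of coincidences between the pair at `p` and the pair at `q` -/
noncomputable def nu {V : Type*} (r : V × Bool → V × Bool → Prop) (p q : V) : ZMod 2 :=
  ∑ a : Bool, ∑ b : Bool, ind (r (p, a) (q, b))

/-- adjacency as an element of `ZMod 2` -/
noncomputable def ad {V : Type*} (G : SimpleGraph V) (p q : V) : ZMod 2 := ind (G.Adj p q)

theorem ad_comm {V : Type*} (G : SimpleGraph V) (p q : V) : ad G p q = ad G q p := by
  unfold ad; rw [G.adj_comm p q]

open Classical in
/-- the weight of a colouring of the doubled vertex set, as a function of its kernel -/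
noncomputable def wt {V : Type*} [Fintype V] [LinearOrder V] (G : SimpleGraph V)
    (r : V × Bool → V × Bool → Prop) : ℂ :=
  if ∀ i, ¬ r (i, false) (i, true) then sg (T fun p q => ad G p q * nu r p q) else 0

/-- the kernel relation of a colouring -/
def ker {κ γ : Type*} (s : κ → γ) : κ → κ → Prop := fun x y => s x = s y

/-- the graph sum -/
noncomputable def S {V : Type*} [Fintype V] [LinearOrder V] (G : SimpleGraph V) (m : ℕ) : ℂ :=
  ∑ s : V × Bool → Fin m, wt G (ker s)

theorem polyFn_S {V : Type*} [Fintype V] [LinearOrder V] (G : SimpleGraph V) : PolyFn (S G) :=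
  polyFn_color (fun r => wt G r)

theorem nu_comm {V γ : Type*} (s : V × Bool → γ) (p q : V) :
    nu (ker s) p q = nu (ker s) q p := by
  unfold nu ker
  rw [sum_comm]
  refine sum_congr rfl fun a _ => sum_congr rfl fun b _ => ind_congr eq_comm

/-- toggle the adjacency of `a` and `b` -/
def toggle {V : Type*} (G : SimpleGraph V) (a b : V) : SimpleGraph V where
  Adj p q := p ≠ q ∧ Xor (G.Adj p q) ((p = a ∧ q = b) ∨ (p = b ∧ q = a))
  symm := ⟨by
    intro p q h
    refine ⟨h.1.symm, ?_⟩
    rcases h.2 with h | h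
    · exact Or.inl ⟨h.1.symm, by tauto⟩
    · exact Or.inr ⟨by tauto, fun h' => h.2 h'.symm⟩⟩
  loopless := ⟨fun _ h => h.1 rfl⟩

/-- toggle the adjacency of `a` with every vertex `v ≠ a` adjacent to `b` -/
def slide {V : Type*} (G : SimpleGraph V) (a b : V) : SimpleGraph V where
  Adj p q := p ≠ q ∧ Xor (G.Adj p q) ((p = a ∧ G.Adj q b) ∨ (q = a ∧ G.Adj p b))
  symm := ⟨by
    intro p q h
    refine ⟨h.1.symm, ?_⟩
    rcases h.2 with h | h
    · exact Or.inl ⟨h.1.symm, by tauto⟩
    · exact Or.inr ⟨by tauto, fun h' => h.2 h'.symm⟩⟩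
  loopless := ⟨fun _ h => h.1 rfl⟩

theorem one_add_one' : (1 : ZMod 2) + 1 = 0 := by decide

theorem ad_toggle {V : Type*} (G : SimpleGraph V) (a b p q : V) (hpq : p ≠ q) :
    ad (toggle G a b) p q = ad G p q + ind ((p = a ∧ q = b) ∨ (p = b ∧ q = a)) := by
  unfold ad toggle
  simp only [Xor]
  by_cases h1 : G.Adj p q <;> by_cases h2 : (p = a ∧ q = b) ∨ (p = b ∧ q = a) <;>
    simp [h1, h2, hpq, one_add_one']

theorem ad_slide {V : Type*} (G : SimpleGraph V) (a b p q : V) (hpq : p ≠ q) :
    ad (slide G a b) p q = ad G p q + ind (p = a) * ad G q b + ind (q = a) * ad G p b := by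
  unfold ad slide
  simp only [Xor]
  by_cases hp : p = a
  · have hq : q ≠ a := fun h => hpq (hp.trans h.symm)
    subst hp
    by_cases h1 : G.Adj p q <;> by_cases h2 : G.Adj q b <;> simp [h1, h2, hpq, hq, one_add_one']
  · by_cases hq : q = a
    · subst hq
      by_cases h1 : G.Adj p q <;> by_cases h2 : G.Adj p b <;> simp [h1, h2, hpq, one_add_one']
    · by_cases h1 : G.Adj p q <;> simp [h1, hpq, hp, hq]

theorem T_toggle {V γ : Type*} [Fintype V] [LinearOrder V] (G : SimpleGraph V) (a b : V)
    (hab : a ≠ b) (s : V × Bool → γ) :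
    T (fun p q => ad (toggle G a b) p q * nu (ker s) p q) =
      T (fun p q => ad G p q * nu (ker s) p q) + nu (ker s) a b := by
  have key := T_eq_of_two (fun p q => ad (toggle G a b) p q * nu (ker s) p q)
    (fun p q => ad G p q * nu (ker s) p q)
    (fun p q => by rw [ad_comm, nu_comm]) (fun p q => by rw [ad_comm, nu_comm]) a b hab ?_ ?_
  · have h2 : ad (toggle G a b) a b * nu (ker s) a b + ad G a b * nu (ker s) a b
        = nu (ker s) a b := by
      rw [ad_toggle G a b a b hab]
      simp only [true_or, and_self, ind_true, add_mul, one_mul]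
      rw [add_right_comm, zmod2_add_self, zero_add]
    rw [h2] at key
    rw [← key, add_comm (T _) (T _), ← add_assoc, zmod2_add_self, zero_add]
  · intro p q hpq h1 h2 h3 h4
    simp only [ad_toggle G a b p q hpq]
    simp [h1, h2]
  · intro l h1 h2
    simp only [ad_toggle G a b a l h1.symm, ad_toggle G a b b l h2.symm]
    simp [h1, h2, hab, zmod2_add_self]

/-- the involution of the 4-term relation -/
def Tm {V γ : Type*} [DecidableEq V] [DecidableEq γ] (a b : V) (s : V × Bool → γ) :
    V × Bool → γ :=
  fun x => if x.1 = b then Equiv.swap (s (a, false)) (s (a, true)) (s x) else s x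

theorem Tm_invol {V γ : Type*} [DecidableEq V] [DecidableEq γ] (a b : V) (hab : a ≠ b) :
    Function.Involutive (Tm (γ := γ) a b) := by
  intro s
  funext x
  unfold Tm
  by_cases h : x.1 = b
  · simp [h, hab]
  · simp [h]

theorem nu_Tm_of_ne {V γ : Type*} [DecidableEq V] [DecidableEq γ] (a b : V)
    (s : V × Bool → γ) (p q : V) (hp : p ≠ b) (hq : q ≠ b) :
    nu (ker (Tm a b s)) p q = nu (ker s) p q := by
  unfold nu ker Tm
  simp [hp, hq]

theorem nu_Tm_ab {V γ : Type*} [DecidableEq V] [DecidableEq γ] (a b : V) (hab : a ≠ b)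
    (s : V × Bool → γ) : nu (ker (Tm a b s)) a b = nu (ker s) a b := by
  have key : ∀ c d, (s (a, c) = Equiv.swap (s (a, false)) (s (a, true)) (s (b, d))) ↔
      (s (a, !c) = s (b, d)) := by
    intro c d
    rw [eq_comm, Equiv.swap_apply_eq_iff]
    cases c
    · simp [eq_comm]
    · simp [eq_comm]
  unfold nu ker Tm
  simp only [hab, if_false, if_true, key, Fintype.sum_bool, Bool.not_true, Bool.not_false]
  ring

theorem swap_key {γ : Type*} [DecidableEq γ] (α β g d : γ) (h1 : α ≠ β) (h2 : g ≠ d)
    (h : ((ind (α = g)) + (ind (α = d)) + ((ind (β = g)) + (ind (β = d)))) = 1) (x : γ) :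
    ind (Equiv.swap α β g = x) + ind (Equiv.swap α β d = x)
    = (ind (g = x) + ind (d = x)) + (ind (α = x) + ind (β = x)) := by
  rw [Equiv.swap_apply_def, Equiv.swap_apply_def]
  have two : ∀ A B C : ZMod 2, A + B = (C + B) + (C + A) := by decide
  have two' : ∀ A B C : ZMod 2, A + B = (A + C) + (C + B) := by decide
  have two'' : ∀ A B C : ZMod 2, A + B = (C + B) + (A + C) := by decide
  have two3 : ∀ A B C : ZMod 2, A + B = (A + C) + (B + C) := by decide
  by_cases e1 : α = g
  · subst e1
    have e2 : β ≠ d := by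
      rintro rfl
      simp [h1, h1.symm, one_add_one'] at h
    have e3 : α ≠ d := h2
    simp only [if_true, e3.symm, e2.symm, if_false]
    exact two _ _ _
  · by_cases e2 : α = d
    · subst e2
      have e3 : β ≠ g := by
        rintro rfl
        simp [h1, h1.symm, one_add_one'] at h
      simp only [if_true, Ne.symm e1, e3.symm, if_false]
      exact two' _ _ _
    · by_cases e3 : β = g
      · subst e3
        simp only [if_true, Ne.symm e2, h2.symm, Ne.symm e1, if_false]
        exact two'' _ _ _
      · by_cases e4 : β = d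
        · subst e4
          simp only [if_true, Ne.symm e2, h2, Ne.symm e1, if_false]
          exact two3 _ _ _
        · simp [e1, e2, e3, e4] at h

theorem nu_Tm_b {V γ : Type*} [DecidableEq V] [DecidableEq γ] (a b : V)
    (s : V × Bool → γ) (l : V) (hl : l ≠ b) (h1 : s (a, false) ≠ s (a, true))
    (h2 : s (b, false) ≠ s (b, true)) (h : nu (ker s) a b = 1) :
    nu (ker (Tm a b s)) b l = nu (ker s) b l + nu (ker s) a l := by
  have key := swap_key (s (a, false)) (s (a, true)) (s (b, false)) (s (b, true)) h1 h2 (by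
    rw [← h]
    unfold nu ker
    simp only [Fintype.sum_bool]
    ring)
  have k0 := key (s (l, false))
  have k1 := key (s (l, true))
  unfold nu ker Tm
  simp only [Fintype.sum_bool, hl, if_true, if_false]
  linear_combination k0 + k1

theorem good_Tm {V γ : Type*} [DecidableEq V] [DecidableEq γ] (a b : V) (s : V × Bool → γ) :
    (∀ i, ¬ ker (Tm a b s) (i, false) (i, true)) ↔ ∀ i, ¬ ker s (i, false) (i, true) := by
  refine forall_congr' fun i => not_congr ?_
  unfold ker Tm
  by_cases h : i = b
  · simp [h]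
  · simp [h]

theorem T_slide {V γ : Type*} [Fintype V] [LinearOrder V] [DecidableEq γ] (G : SimpleGraph V)
    (a b : V) (hab : a ≠ b) (s : V × Bool → γ) (h1 : s (a, false) ≠ s (a, true))
    (h2 : s (b, false) ≠ s (b, true)) (h : nu (ker s) a b = 1) :
    T (fun p q => ad (slide G a b) p q * nu (ker s) p q) =
      T (fun p q => ad G p q * nu (ker (Tm a b s)) p q) := by
  have key := T_eq_of_two (fun p q => ad (slide G a b) p q * nu (ker s) p q)
    (fun p q => ad G p q * nu (ker (Tm a b s)) p q)
    (fun p q => by rw [ad_comm, nu_comm]) (fun p q => by rw [ad_comm, nu_comm]) a b hab ?_ ?_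
  · have h2 : ad (slide G a b) a b * nu (ker s) a b + ad G a b * nu (ker (Tm a b s)) a b
        = 0 := by
      rw [ad_slide G a b a b hab, nu_Tm_ab a b hab]
      have h3 : ad G b b = 0 := by unfold ad; simp
      rw [h3, ind_neg hab.symm, mul_zero, zero_mul, add_zero, add_zero, zmod2_add_self]
    rw [h2] at key
    have h4 : ∀ x y : ZMod 2, x + y = 0 → x = y := by decide
    exact h4 _ _ key
  · intro p q hpq h1 h2 h3 h4
    simp only [ad_slide G a b p q hpq, nu_Tm_of_ne a b s p q h2 h4]
    simp [h1, h3]
  · intro l h3 h4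
    simp only [ad_slide G a b a l h3.symm, ad_slide G a b b l h4.symm,
      nu_Tm_of_ne a b s a l hab h4, nu_Tm_b a b s l h4 h1 h2 h]
    rw [ind_neg h3, ind_neg hab.symm, ind_true, ad_comm G l b]
    simp only [one_mul, zero_mul, add_zero]
    have h5 : ∀ A B x y : ZMod 2, (A + B) * y + A * y = B * x + B * (x + y) := by decide
    exact h5 _ _ _ _

theorem wt_four {V γ : Type*} [Fintype V] [LinearOrder V] [DecidableEq γ] (G : SimpleGraph V)
    (a b : V) (hab : a ≠ b) (s : V × Bool → γ) :
    wt (slide G a b) (ker s) - wt (toggle (slide G a b) a b) (ker s) =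
      wt G (ker (Tm a b s)) - wt (toggle G a b) (ker (Tm a b s)) := by
  unfold wt
  by_cases hg : ∀ i, ¬ ker s (i, false) (i, true)
  · rw [if_pos hg, if_pos hg, if_pos ((good_Tm a b s).mpr hg), if_pos ((good_Tm a b s).mpr hg),
      T_toggle _ a b hab, T_toggle _ a b hab, nu_Tm_ab a b hab]
    rcases zmod2_cases (nu (ker s) a b) with h | h
    · rw [h]; simp
    · rw [T_slide G a b hab s (hg a) (hg b) h]
  · rw [if_neg hg, if_neg hg, if_neg (fun h => hg ((good_Tm a b s).mp h)),
      if_neg (fun h => hg ((good_Tm a b s).mp h))]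

theorem S_four {V : Type*} [Fintype V] [LinearOrder V] (G : SimpleGraph V)
    (a b : V) (hab : a ≠ b) (m : ℕ) :
    S G m - S (toggle G a b) m = S (slide G a b) m - S (toggle (slide G a b) a b) m := by
  unfold S
  rw [← sum_sub_distrib, ← sum_sub_distrib]
  simp only [wt_four G a b hab]
  rw [← Equiv.sum_comp (Function.Involutive.toPerm _ (Tm_invol (γ := Fin m) a b hab))]
  rfl

theorem val_S_four {V : Type*} [Fintype V] [LinearOrder V] (G : SimpleGraph V)
    (a b : V) (hab : a ≠ b) :
    val (S G) - val (S (toggle G a b)) = val (S (slide G a b)) - val (S (toggle (slide G a b) a b)) := by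
  rw [← val_sub (polyFn_S _) (polyFn_S _), ← val_sub (polyFn_S _) (polyFn_S _)]
  congr 1
  funext m
  exact S_four G a b hab m

theorem S_iso {V W : Type*} [Fintype V] [LinearOrder V] [Fintype W] [LinearOrder W]
    (G : SimpleGraph V) (H : SimpleGraph W) (φ : G ≃g H) (m : ℕ) : S G m = S H m := by
  unfold S
  have e : V × Bool ≃ W × Bool := Equiv.prodCongr φ.toEquiv (Equiv.refl Bool)
  rw [← Equiv.sum_comp (Equiv.arrowCongr (Equiv.prodCongr φ.toEquiv (Equiv.refl Bool)).symm
    (Equiv.refl (Fin m)))]
  refine sum_congr rfl fun s _ => ?_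
  have hker : ∀ x y : V × Bool, ker ((Equiv.arrowCongr (Equiv.prodCongr φ.toEquiv
      (Equiv.refl Bool)).symm (Equiv.refl (Fin m))) s) x y ↔
      ker s (φ x.1, x.2) (φ y.1, y.2) := by
    intro x y
    rfl
  unfold wt
  have h1 : (∀ i, ¬ ker ((Equiv.arrowCongr (Equiv.prodCongr φ.toEquiv
      (Equiv.refl Bool)).symm (Equiv.refl (Fin m))) s) (i, false) (i, true)) ↔
      ∀ i, ¬ ker s (i, false) (i, true) := by
    constructor
    · intro h i
      have := h (φ.symm i)
      rw [hker] at this
      simpa using this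
    · intro h i
      rw [hker]
      exact h (φ i)
  have h2 : T (fun p q => ad G p q * nu (ker ((Equiv.arrowCongr (Equiv.prodCongr φ.toEquiv
      (Equiv.refl Bool)).symm (Equiv.refl (Fin m))) s)) p q) =
      T (fun p q => ad H p q * nu (ker s) p q) := by
    rw [← T_comp φ.toEquiv (fun p q => ad H p q * nu (ker s) p q)
      (fun p q => by rw [ad_comm, nu_comm])]
    refine T_congr fun p q _ => ?_
    congr 1
    exact ind_congr (φ.map_adj_iff (v := p) (w := q)).symm
  rw [h2]
  by_cases h : ∀ i, ¬ ker s (i, false) (i, true)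
  · rw [if_pos h, if_pos (h1.mpr h)]
  · rw [if_neg h, if_neg (fun h' => h (h1.mp h'))]

end graph

end Pool.Agent.Q253.SL2
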