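import Pool.Agent.Q253.SL2.Rep

set_option autoImplicit false
set_option linter.unusedSectionVars false

/-!
# Invariance of the chord sum, and the polynomial in the Casimir element
-/

namespace Pool.Agent.Q253.SL2

open Finset

section

variable {A : Type*} [Ring A] [Algebra ℂ A]

theorem comm_prod (u : A) : ∀ (n : ℕ) (m : Fin n → A),
    u * (List.ofFn m).prod - (List.ofFn m).prod * u =
      ∑ p, (List.ofFn (Function.update m p (u * m p - m p * u))).prod
  | 0, m => by simp
  | n + 1, m => by
    rw [Fin.sum_univ_succ]
    have e1 : ∀ y : A, (List.ofFn (Function.update m 0 y)).prod =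
        y * (List.ofFn fun i : Fin n => m i.succ).prod := by
      intro y
      rw [List.ofFn_succ, List.prod_cons, Function.update_self]
      congr 3
    have e2 : ∀ (q : Fin n) (y : A), (List.ofFn (Function.update m q.succ y)).prod =
        m 0 * (List.ofFn (Function.update (fun i : Fin n => m i.succ) q y)).prod := by
      intro q y
      rw [List.ofFn_succ, List.prod_cons, Function.update_of_ne (Fin.succ_ne_zero q).symm]
      congr 3
      funext i
      by_cases h : i = q
      · subst h; simp
      · rw [Function.update_of_ne h, Function.update_of_ne (fun h' => h (Fin.succ_injective _ h'))]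
    rw [e1]
    simp only [e2]
    rw [← mul_sum, ← comm_prod u n, List.ofFn_succ, List.prod_cons]
    noncomm_ring

variable {n : ℕ}

theorem chordSum_comm {K : Type*} [Fintype K] [Nonempty K] (D : ChordDiagram n)
    (a b : K → A) (u : A)
    (h : ∀ β : A →ₗ[ℂ] A →ₗ[ℂ] A,
      ∑ k, (β (u * a k - a k * u) (b k) + β (a k) (u * b k - b k * u)) = 0) :
    u * chordSum D (fun _ => a) (fun _ => b) - chordSum D (fun _ => a) (fun _ => b) * u = 0 := by
  let m : (Fin n → K) → Fin (2 * n) → A := fun s p =>
    Sum.elim (fun i => a (s i)) (fun i => b (s i)) (D.pt.symm p)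
  have e1 : u * chordSum D (fun _ => a) (fun _ => b) - chordSum D (fun _ => a) (fun _ => b) * u =
      ∑ i : Fin n, ∑ s : Fin n → K,
        ((List.ofFn (Function.update (m s) (D.pt (Sum.inl i)) (u * a (s i) - a (s i) * u))).prod +
        (List.ofFn (Function.update (m s) (D.pt (Sum.inr i)) (u * b (s i) - b (s i) * u))).prod) := by
    unfold chordSum
    rw [mul_sum, sum_mul, ← sum_sub_distrib, sum_comm]
    refine sum_congr rfl fun s _ => ?_
    have := comm_prod u (2 * n) (m s)
    rw [this, ← Equiv.sum_comp D.pt, Fintype.sum_sum_type, ← sum_add_distrib]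
    refine sum_congr rfl fun i _ => ?_
    simp [m]
  rw [e1]
  apply sum_eq_zero
  intro i _
  have hne : D.pt (Sum.inl i) ≠ D.pt (Sum.inr i) := fun h' => by
    have := D.pt.injective h'
    cases this
  let β : (Fin n → K) → (A →ₗ[ℂ] A →ₗ[ℂ] A) := fun s =>
    LinearMap.mk₂ ℂ (fun y z => MultilinearMap.mkPiAlgebraFin ℂ (2 * n) A
      (Function.update (Function.update (m s) (D.pt (Sum.inl i)) y) (D.pt (Sum.inr i)) z))
      (by
        intro y y' z
        rw [Function.update_comm hne, Function.update_comm hne, Function.update_comm hne,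
          MultilinearMap.map_update_add])
      (by
        intro c y z
        rw [Function.update_comm hne, Function.update_comm hne, MultilinearMap.map_update_smul])
      (by
        intro y z z'
        rw [MultilinearMap.map_update_add])
      (by
        intro c y z
        rw [MultilinearMap.map_update_smul])
  have hβ : ∀ s y z, β s y z = (List.ofFn (Function.update (Function.update (m s)
      (D.pt (Sum.inl i)) y) (D.pt (Sum.inr i)) z)).prod := by
    intro s y z
    simp only [β, LinearMap.mk₂_apply, MultilinearMap.mkPiAlgebraFin_apply]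
  have hm : ∀ s k p, p ≠ D.pt (Sum.inl i) → p ≠ D.pt (Sum.inr i) →
      m (Function.update s i k) p = m s p := by
    intro s k p h1 h2
    obtain ⟨P, rfl⟩ := D.pt.surjective p
    simp only [m, Equiv.symm_apply_apply]
    rcases P with j | j
    · have : j ≠ i := fun h' => h1 (by rw [h'])
      simp [this]
    · have : j ≠ i := fun h' => h2 (by rw [h'])
      simp [this]
  have hml : ∀ s, m s (D.pt (Sum.inl i)) = a (s i) := by
    intro s; simp [m]
  have hmr : ∀ s, m s (D.pt (Sum.inr i)) = b (s i) := by
    intro s; simp [m]
  have key1 : ∀ s k y, (List.ofFn (Function.update (m (Function.update s i k))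
      (D.pt (Sum.inl i)) y)).prod = β s y (b k) := by
    intro s k y
    rw [hβ]
    congr 2
    funext p
    by_cases h2 : p = D.pt (Sum.inr i)
    · rw [h2, Function.update_of_ne hne.symm, Function.update_self, hmr, Function.update_self]
    · rw [Function.update_of_ne (a := p) h2]
      by_cases h1 : p = D.pt (Sum.inl i)
      · rw [h1, Function.update_self, Function.update_self]
      · rw [Function.update_of_ne h1, Function.update_of_ne h1, hm s k p h1 h2]
  have key2 : ∀ s k y, (List.ofFn (Function.update (m (Function.update s i k))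
      (D.pt (Sum.inr i)) y)).prod = β s (a k) y := by
    intro s k y
    rw [hβ]
    congr 2
    funext p
    by_cases h2 : p = D.pt (Sum.inr i)
    · rw [h2, Function.update_self, Function.update_self]
    · rw [Function.update_of_ne (a := p) h2, Function.update_of_ne (a := p) h2]
      by_cases h1 : p = D.pt (Sum.inl i)
      · rw [h1, hml, Function.update_self, Function.update_self]
      · rw [Function.update_of_ne h1, hm s k p h1 h2]
  have hK : (Fintype.card K : ℂ) ≠ 0 := by
    exact_mod_cast Fintype.card_ne_zero
  set S0 : A := ∑ s : Fin n → K,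
        ((List.ofFn (Function.update (m s) (D.pt (Sum.inl i)) (u * a (s i) - a (s i) * u))).prod +
        (List.ofFn (Function.update (m s) (D.pt (Sum.inr i)) (u * b (s i) - b (s i) * u))).prod)
    with hS0
  have e2 : Fintype.card K • S0 = 0 := by
    rw [hS0, ← sum_update i]
    apply sum_eq_zero
    intro s _
    simp only [key1, key2, Function.update_self]
    exact h (β s)
  rw [← Nat.cast_smul_eq_nsmul ℂ] at e2
  have e3 := congrArg (fun z => (Fintype.card K : ℂ)⁻¹ • z) e2
  simpa [smul_smul, inv_mul_cancel₀ hK] using e3

theorem cas_invar (e f h : A) (h1 : h * e - e * h = (2 : ℂ) • e)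
    (h2 : h * f - f * h = (-2 : ℂ) • f) (h3 : e * f - f * e = h) (β : A →ₗ[ℂ] A →ₗ[ℂ] A) :
    (∑ k, (β (e * casA e f h k - casA e f h k * e) (casB e f h k) +
      β (casA e f h k) (e * casB e f h k - casB e f h k * e)) = 0) ∧
    (∑ k, (β (h * casA e f h k - casA e f h k * h) (casB e f h k) +
      β (casA e f h k) (h * casB e f h k - casB e f h k * h)) = 0) := by
  have k1 : e * h - h * e = (-2 : ℂ) • e := by rw [← neg_sub, h1]; module
  constructor
  · rw [Fin.sum_univ_three]
    simp only [casA, casB, Matrix.cons_val_zero, Matrix.cons_val_one, Matrix.cons_val_two,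
      Matrix.head_cons, Matrix.tail_cons, mul_smul_comm, smul_mul_assoc, ← smul_sub, sub_self,
      h3, k1, map_smul, map_zero, smul_zero, LinearMap.smul_apply, LinearMap.zero_apply,
      zero_add, add_zero]
    module
  · rw [Fin.sum_univ_three]
    simp only [casA, casB, Matrix.cons_val_zero, Matrix.cons_val_one, Matrix.cons_val_two,
      Matrix.head_cons, Matrix.tail_cons, mul_smul_comm, smul_mul_assoc, ← smul_sub, sub_self,
      h1, h2, map_smul, map_zero, smul_zero, LinearMap.smul_apply, LinearMap.zero_apply,
      zero_add, add_zero]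
    module

end

theorem Om_comm_E {n : ℕ} (D : ChordDiagram n) : Commute uE (Om D) := by
  have := chordSum_comm D (casA uE uF uH) (casB uE uF uH) uE
    (fun β => (cas_invar uE uF uH uHE uHF uEF β).1)
  exact sub_eq_zero.mp this

theorem Om_comm_H {n : ℕ} (D : ChordDiagram n) : Commute uH (Om D) := by
  have := chordSum_comm D (casA uE uF uH) (casB uE uF uH) uH
    (fun β => (cas_invar uE uF uH uHE uHF uEF β).2)
  exact sub_eq_zero.mp this

theorem exists_poly {n : ℕ} (D : ChordDiagram n) :
    ∃ p : Polynomial ℂ, Polynomial.aeval Cas p = Om D :=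
  centralizer _ (Om_comm_H D) (Om_comm_E D)

theorem existsUnique_poly {n : ℕ} (D : ChordDiagram n) :
    ∃! p : Polynomial ℂ, Polynomial.aeval Cas p = Om D := by
  obtain ⟨p, hp⟩ := exists_poly D
  exact ⟨p, hp, fun q hq => aeval_Cas_injective q p (hq.trans hp.symm)⟩

end Pool.Agent.Q253.SL2
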