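import Pool.Agent.Q253.SL2.Doubling

set_option autoImplicit false
set_option linter.unusedSectionVars false

/-!
# The oscillator evaluation of the chord sum
-/

namespace Pool.Agent.Q253.SL2

open Finset

section

variable {n : ℕ} (D : ChordDiagram n)

/-- decomposition of the sum over unordered pairs of doubled labels -/
theorem T_double (f : Lab n → Lab n → ZMod 2) :
    T f = ∑ i, ∑ j, (if i < j then ∑ a, ∑ b, f (toLex (i, a)) (toLex (j, b)) else 0) +
      ∑ i, f (toLex (i, false)) (toLex (i, true)) := by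
  have e1 : ∀ F : Lab n → ZMod 2, ∑ p, F p = ∑ i : Fin n, ∑ a : Bool, F (toLex (i, a)) := by
    intro F
    rw [← Equiv.sum_comp (toLex : Fin n × Bool ≃ Lab n) F, Fintype.sum_prod_type]
  have e2 : ∀ (i j : Fin n) (a b : Bool), (if (toLex (i, a) : Lab n) < toLex (j, b) then
      f (toLex (i, a)) (toLex (j, b)) else 0) = (if i < j then f (toLex (i, a)) (toLex (j, b)) else 0)
      + (if i = j then (if a < b then f (toLex (i, a)) (toLex (j, b)) else 0) else 0) := by
    intro i j a b
    have : (toLex (i, a) : Lab n) < toLex (j, b) ↔ i < j ∨ i = j ∧ a < b := Prod.Lex.toLex_lt_toLex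
    by_cases h1 : i < j
    · have h2 : ¬ i = j := ne_of_lt h1
      simp [this, h1, h2]
    · by_cases h2 : i = j
      · subst h2
        by_cases h3 : a < b <;> simp [this, h3]
      · simp [this, h1, h2]
  unfold T
  rw [e1, ← sum_add_distrib]
  refine sum_congr rfl fun i _ => ?_
  simp only [e1, e2]
  have e3 : ∑ a : Bool, ∑ j : Fin n, ∑ b : Bool,
      (if i < j then f (toLex (i, a)) (toLex (j, b)) else 0) =
      ∑ j : Fin n, (if i < j then ∑ a : Bool, ∑ b : Bool, f (toLex (i, a)) (toLex (j, b)) else 0) := by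
    rw [sum_comm]
    refine sum_congr rfl fun j _ => ?_
    split_ifs <;> simp
  have e4 : ∀ a : Bool, ∑ j : Fin n, ∑ b : Bool,
      (if i = j then (if a < b then f (toLex (i, a)) (toLex (j, b)) else 0) else 0) =
      ∑ b : Bool, (if a < b then f (toLex (i, a)) (toLex (i, b)) else 0) := by
    intro a
    rw [Finset.sum_eq_single i]
    · simp
    · intro j _ hj
      simp [Ne.symm hj]
    · simp
  simp only [sum_add_distrib]
  rw [← e3]
  congr 1
  have e5 : ∑ a : Bool, ∑ b : Bool, (if a < b then f (toLex (i, a)) (toLex (i, b)) else 0) =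
      f (toLex (i, false)) (toLex (i, true)) := by
    simp
  rw [← e5]
  exact sum_congr rfl fun a _ => e4 a

theorem T_word (τ : Fin n → Bool) {γ : Type*} (s : Lab n → γ) :
    T (fun p q => Xw (word D τ) p q * ind (ker s p q)) =
      T (fun i j => ad D.graph i j * nu (ker (s ∘ toLex)) i j) +
      ∑ i, (1 + ind (τ i = true)) * ind (ker (s ∘ toLex) (i, false) (i, true)) := by
  rw [T_double]
  congr 1
  · unfold T
    refine sum_congr rfl fun i _ => sum_congr rfl fun j _ => ?_
    by_cases hij : i < j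
    · rw [if_pos hij, if_pos hij]
      unfold nu
      beta_reduce
      rw [mul_sum]
      refine sum_congr rfl fun a _ => ?_
      rw [mul_sum]
      refine sum_congr rfl fun b _ => ?_
      rw [Xw_word D τ i j a b (ne_of_lt hij)]
      rfl
    · rw [if_neg hij, if_neg hij]
  · refine sum_congr rfl fun i _ => ?_
    rw [Xw_word_self]
    rfl

theorem sg_sum {α : Type*} (s : Finset α) (f : α → ZMod 2) :
    sg (∑ a ∈ s, f a) = ∏ a ∈ s, sg (f a) := by
  classical
  induction s using Finset.induction_on with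
  | empty => simp
  | insert a s ha ih => rw [sum_insert ha, prod_insert ha, sg_add, ih]

theorem sum_tau {γ : Type*} (s : Fin n × Bool → γ) :
    ∑ τ : Fin n → Bool, sg (T (fun i j => ad D.graph i j * nu (ker s) i j) +
      ∑ i, (1 + ind (τ i = true)) * ind (ker s (i, false) (i, true))) =
      2 ^ n * wt D.graph (ker s) := by
  simp only [sg_add, sg_sum]
  rw [← mul_sum]
  have e1 : ∑ τ : Fin n → Bool, ∏ i, sg ((1 + ind (τ i = true)) *
      ind (ker s (i, false) (i, true))) =
      ∏ i, ∑ t : Bool, sg ((1 + ind (t = true)) * ind (ker s (i, false) (i, true))) := by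
    rw [Fintype.prod_sum]
  have e2 : ∀ i : Fin n, ∑ t : Bool, sg ((1 + ind (t = true)) *
      ind (ker s (i, false) (i, true))) = 1 + sg (ind (ker s (i, false) (i, true))) := by
    intro i
    simp [one_add_one']
  rw [e1]
  simp only [e2]
  unfold wt
  by_cases h : ∀ i, ¬ ker s (i, false) (i, true)
  · rw [if_pos h]
    have : ∀ i : Fin n, 1 + sg (ind (ker s (i, false) (i, true))) = 2 := by
      intro i
      rw [ind_neg (h i), sg_zero]
      norm_num
    simp only [this]
    rw [prod_const, card_univ, Fintype.card_fin, mul_comm]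
  · rw [if_neg h, mul_zero]
    push Not at h
    obtain ⟨i, hi⟩ := h
    rw [Finset.prod_eq_zero (mem_univ i), mul_zero]
    rw [ind_pos hi, sg_one]
    norm_num

theorem sum_P (m : ℕ) : ∑ τ : Fin n → Bool, P (Xw (word D τ)) m = 2 ^ n * S D.graph m := by
  unfold P S
  rw [sum_comm, mul_sum]
  rw [← Equiv.sum_comp (Equiv.arrowCongr (toLex : Fin n × Bool ≃ Lab n) (Equiv.refl (Fin m)))]
  refine sum_congr rfl fun s _ => ?_
  rw [← sum_tau]
  refine sum_congr rfl fun τ _ => ?_
  rw [T_word]
  rfl

theorem sum_cc : ∑ τ : Fin n → Bool, cc (2 * n) (word D τ) = (1 / 2) ^ n * val (S D.graph) := by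
  have e1 : ∀ τ : Fin n → Bool, cc (2 * n) (word D τ) = (1 / 4) ^ n * val (P (Xw (word D τ))) := by
    intro τ
    unfold cc
    have h1 : ∑ i, Bw (word D τ) i = 0 := sum_eq_zero fun l _ => Bw_word D τ l
    have h2 : Fintype.card (Lab n) = 2 * n := by
      rw [Fintype.card_lex, Fintype.card_prod, Fintype.card_fin, Fintype.card_bool, mul_comm]
    rw [h1, h2, sg_zero, pow_mul, pow_mul]
    norm_num
  simp only [e1]
  rw [← mul_sum, ← val_sum _ (fun τ _ => polyFn_P _)]
  have e2 : (fun m => ∑ τ : Fin n → Bool, P (Xw (word D τ)) m) =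
      fun m => (2 : ℂ) ^ n * S D.graph m := by
    funext m
    exact sum_P D m
  rw [e2, val_const_mul _ (polyFn_S _), ← mul_assoc, ← mul_pow]
  norm_num

end

section words

variable {A : Type*} [Ring A] [Algebra ℂ A] (x d : A) {n : ℕ} (D : ChordDiagram n)

/-- first legs of the doubled tensor -/
def legA (k : Bool × Bool × Bool) : A := Lt x d false k.2.1 * Lt x d false k.2.2

/-- second legs of the doubled tensor -/
def legB (k : Bool × Bool × Bool) : A :=
  if k.1 then Lt x d true k.2.2 * Lt x d true k.2.1 else Lt x d true k.2.1 * Lt x d true k.2.2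

/-- colourings of the doubled word -/
def colEquiv (n : ℕ) : (Fin n → Bool) × (Lab n → Bool) ≃ (Fin n → Bool × Bool × Bool) where
  toFun z := fun i => (z.1 i, z.2 (toLex (i, false)), z.2 (toLex (i, true)))
  invFun s := (fun i => (s i).1, fun l => bif (ofLex l).2 then (s (ofLex l).1).2.2
    else (s (ofLex l).1).2.1)
  left_inv := by
    rintro ⟨τ, σ⟩
    dsimp only
    congr 1
    funext l
    obtain ⟨⟨i, a⟩, rfl⟩ := toLex.surjective l
    cases a <;> rfl
  right_inv := by
    intro s
    rfl

theorem colEquiv_apply (τ : Fin n → Bool) (σ : Lab n → Bool) (i : Fin n) :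
    colEquiv n (τ, σ) i = (τ i, σ (toLex (i, false)), σ (toLex (i, true))) := rfl

theorem chordSum_words : chordSum D (fun _ => legA x d) (fun _ => legB x d) =
    ∑ τ : Fin n → Bool, Hs x d (word D τ) := by
  unfold chordSum Hs
  rw [← Equiv.sum_comp (colEquiv n), Fintype.sum_prod_type]
  refine sum_congr rfl fun τ _ => sum_congr rfl fun σ _ => ?_
  unfold ev pr word
  rw [List.map_flatten, List.prod_flatten, List.map_map, List.map_ofFn]
  congr 2
  funext p
  rw [Function.comp]
  rcases D.pt.symm p with i | i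
  · simp [block, legA, colEquiv_apply]
  · by_cases h : τ i = true <;> simp [block, legB, colEquiv_apply, h]

theorem words_eval (hxd : d * x = x * d + 1) :
    chordSum D (fun _ => legA x d) (fun _ => legB x d) =
      algebraMap ℂ A ((1 / 2) ^ n * val (S D.graph)) := by
  rw [chordSum_words, ← sum_cc, map_sum]
  refine sum_congr rfl fun τ _ => ?_
  exact Hs_eq x d hxd (2 * n) _ (word_valid D τ) (word_length D τ)

/-- the first legs of the Casimir tensor `(E ⊗ F + F ⊗ E + H ⊗ H / 2) / 4` -/
noncomputable def casA (E F H : A) : Fin 3 → A := ![(1 / 4 : ℂ) • E, (1 / 4 : ℂ) • F, (1 / 8 : ℂ) • H]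

/-- the second legs of the Casimir tensor -/
def casB (E F H : A) : Fin 3 → A := ![F, E, H]

theorem tensor_identity (β : A →ₗ[ℂ] A →ₗ[ℂ] A) :
    ∑ k, β (casA ((1 / 2 : ℂ) • (x * x)) ((-1 / 2 : ℂ) • (d * d))
        ((1 / 2 : ℂ) • (x * d + d * x)) k)
      (casB ((1 / 2 : ℂ) • (x * x)) ((-1 / 2 : ℂ) • (d * d)) ((1 / 2 : ℂ) • (x * d + d * x)) k) =
    ∑ k, β ((-1 / 32 : ℂ) • legA x d k) (legB x d k) := by
  rw [Fin.sum_univ_three, Fintype.sum_prod_type]
  simp only [Fintype.sum_prod_type, Fintype.sum_bool, casA, casB, legA, legB, Lt,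
    Matrix.cons_val_zero, Matrix.cons_val_one, Matrix.cons_val_two, Matrix.head_cons,
    Matrix.tail_cons, if_true, Bool.false_eq_true, if_false, map_smul, map_add, map_neg, mul_neg, neg_mul,
    neg_neg, LinearMap.smul_apply, LinearMap.add_apply]
  module

theorem osc_eval (hxd : d * x = x * d + 1) :
    chordSum D (fun _ => casA ((1 / 2 : ℂ) • (x * x)) ((-1 / 2 : ℂ) • (d * d))
        ((1 / 2 : ℂ) • (x * d + d * x)))
      (fun _ => casB ((1 / 2 : ℂ) • (x * x)) ((-1 / 2 : ℂ) • (d * d))
        ((1 / 2 : ℂ) • (x * d + d * x))) =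
      algebraMap ℂ A ((-1 / 64) ^ n * val (S D.graph)) := by
  have e1 := words_eval x d D hxd
  have e2 := chordSum_smul D (-1 / 32 : ℂ) (legA x d) (legB x d)
  set E : A := (1 / 2 : ℂ) • (x * x)
  set F : A := (-1 / 2 : ℂ) • (d * d)
  set H : A := (1 / 2 : ℂ) • (x * d + d * x)
  -- padding
  rw [chordSum_pad D (Sum.inl : Fin 3 → Fin 3 ⊕ (Bool × Bool × Bool)) Sum.inl_injective
    (casA E F H) (casB E F H) (Sum.elim (casA E F H) (fun _ => 0))
    (Sum.elim (casB E F H) (legB x d)) (fun _ => rfl) (fun _ => rfl) (by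
      rintro (k | k) hk
      · exact absurd ⟨k, rfl⟩ hk
      · rfl)]
  rw [chordSum_pad D (Sum.inr : (Bool × Bool × Bool) → Fin 3 ⊕ (Bool × Bool × Bool))
    Sum.inr_injective (fun k => (-1 / 32 : ℂ) • legA x d k) (legB x d)
    (Sum.elim (fun _ => 0) (fun k => (-1 / 32 : ℂ) • legA x d k))
    (Sum.elim (casB E F H) (legB x d)) (fun _ => rfl) (fun _ => rfl) (by
      rintro (k | k) hk
      · rfl
      · exact absurd ⟨k, rfl⟩ hk)] at e2
  rw [chordSum_replace D (Sum.elim (casA E F H) (fun _ => 0)) (Sum.elim (casB E F H) (legB x d))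
    (Sum.elim (fun _ => 0) (fun k => (-1 / 32 : ℂ) • legA x d k))
    (Sum.elim (casB E F H) (legB x d)), e2, e1]
  · rw [Algebra.smul_def, ← map_mul]
    congr 1
    rw [← mul_assoc, ← mul_pow]
    norm_num
  · intro β
    rw [Fintype.sum_sum_type, Fintype.sum_sum_type]
    simp only [Sum.elim_inl, Sum.elim_inr, map_zero, LinearMap.zero_apply, sum_const_zero,
      add_zero, zero_add]
    exact tensor_identity x d β

end words

end Pool.Agent.Q253.SL2
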