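import Mathlib

set_option autoImplicit false

/-!
# Functions of a number of colours that are polynomials, and their value at `-2`
-/

namespace Pool.Agent.Q253.SL2

open Polynomial Finset

/-- `F` is given by a polynomial. -/
def PolyFn (F : ℕ → ℂ) : Prop := ∃ p : ℂ[X], ∀ m : ℕ, p.eval (m : ℂ) = F m

open Classical in
/-- The value at `-2` of the polynomial giving `F`. -/
noncomputable def val (F : ℕ → ℂ) : ℂ := if h : PolyFn F then h.choose.eval (-2) else 0

theorem eq_of_nat {p q : ℂ[X]} (h : ∀ m : ℕ, p.eval (m : ℂ) = q.eval (m : ℂ)) : p = q := by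
  apply Polynomial.eq_of_infinite_eval_eq
  apply Set.Infinite.mono _ (Set.infinite_range_of_injective (Nat.cast_injective (R := ℂ)))
  rintro _ ⟨m, rfl⟩
  exact h m

theorem val_eq {F : ℕ → ℂ} (p : ℂ[X]) (hp : ∀ m : ℕ, p.eval (m : ℂ) = F m) :
    val F = p.eval (-2) := by
  have h : PolyFn F := ⟨p, hp⟩
  unfold val
  rw [dif_pos h]
  have : h.choose = p := eq_of_nat fun m => by rw [h.choose_spec m, hp m]
  rw [this]

theorem val_add {F G : ℕ → ℂ} (hF : PolyFn F) (hG : PolyFn G) :
    val (fun m => F m + G m) = val F + val G := by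
  obtain ⟨p, hp⟩ := hF
  obtain ⟨q, hq⟩ := hG
  rw [val_eq p hp, val_eq q hq, val_eq (p + q) fun m => by rw [eval_add, hp, hq], eval_add]

theorem PolyFn.add {F G : ℕ → ℂ} (hF : PolyFn F) (hG : PolyFn G) :
    PolyFn (fun m => F m + G m) := by
  obtain ⟨p, hp⟩ := hF
  obtain ⟨q, hq⟩ := hG
  exact ⟨p + q, fun m => by rw [eval_add, hp, hq]⟩

theorem val_const_mul {F : ℕ → ℂ} (c : ℂ) (hF : PolyFn F) :
    val (fun m => c * F m) = c * val F := by
  obtain ⟨p, hp⟩ := hF
  rw [val_eq p hp, val_eq (C c * p) fun m => by rw [eval_mul, eval_C, hp], eval_mul, eval_C]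

theorem PolyFn.const_mul {F : ℕ → ℂ} (c : ℂ) (hF : PolyFn F) :
    PolyFn (fun m => c * F m) := by
  obtain ⟨p, hp⟩ := hF
  exact ⟨C c * p, fun m => by rw [eval_mul, eval_C, hp]⟩

theorem val_id_mul {F : ℕ → ℂ} (hF : PolyFn F) :
    val (fun m => (m : ℂ) * F m) = -2 * val F := by
  obtain ⟨p, hp⟩ := hF
  rw [val_eq p hp, val_eq (X * p) fun m => by rw [eval_mul, eval_X, hp], eval_mul, eval_X]

theorem PolyFn.id_mul {F : ℕ → ℂ} (hF : PolyFn F) : PolyFn (fun m => (m : ℂ) * F m) := by
  obtain ⟨p, hp⟩ := hF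
  exact ⟨X * p, fun m => by rw [eval_mul, eval_X, hp]⟩

theorem PolyFn.sub {F G : ℕ → ℂ} (hF : PolyFn F) (hG : PolyFn G) :
    PolyFn (fun m => F m - G m) := by
  obtain ⟨p, hp⟩ := hF
  obtain ⟨q, hq⟩ := hG
  exact ⟨p - q, fun m => by rw [eval_sub, hp, hq]⟩

theorem val_sub {F G : ℕ → ℂ} (hF : PolyFn F) (hG : PolyFn G) :
    val (fun m => F m - G m) = val F - val G := by
  obtain ⟨p, hp⟩ := hF
  obtain ⟨q, hq⟩ := hG
  rw [val_eq p hp, val_eq q hq, val_eq (p - q) fun m => by rw [eval_sub, hp, hq], eval_sub]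

theorem PolyFn.sum {α : Type*} (s : Finset α) {F : α → ℕ → ℂ} (hF : ∀ a ∈ s, PolyFn (F a)) :
    PolyFn (fun m => ∑ a ∈ s, F a m) := by
  classical
  induction s using Finset.induction_on with
  | empty => exact ⟨0, fun m => by simp⟩
  | insert a s ha ih =>
    simp only [sum_insert ha]
    exact (hF a (mem_insert_self _ _)).add (ih fun b hb => hF b (mem_insert_of_mem hb))

theorem val_sum {α : Type*} (s : Finset α) {F : α → ℕ → ℂ} (hF : ∀ a ∈ s, PolyFn (F a)) :
    val (fun m => ∑ a ∈ s, F a m) = ∑ a ∈ s, val (F a) := by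
  classical
  induction s using Finset.induction_on with
  | empty => rw [val_eq (0 : ℂ[X]) fun m => by simp]; simp
  | insert a s ha ih =>
    simp only [sum_insert ha]
    rw [val_add (hF a (mem_insert_self _ _))
      (PolyFn.sum s fun b hb => hF b (mem_insert_of_mem hb)),
      ih fun b hb => hF b (mem_insert_of_mem hb)]

/-- maps with a given kernel are injections of the quotient -/
noncomputable def kerEquiv {κ : Type*} (r : Setoid κ) (m : ℕ) :
    {s : κ → Fin m // Setoid.ker s = r} ≃ (Quotient r ↪ Fin m) where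
  toFun s := ⟨Quotient.lift s.1 (fun a b h => by
      have : (Setoid.ker s.1) a b := by rw [s.2]; exact h
      exact this), by
    rintro ⟨a⟩ ⟨b⟩ h
    apply Quotient.sound
    have : (Setoid.ker s.1) a b := h
    rw [s.2] at this
    exact this⟩
  invFun g := ⟨fun a => g (Quotient.mk r a), by
    ext a b
    constructor
    · intro h
      exact Quotient.exact (g.injective h)
    · intro h
      exact congrArg g (Quotient.sound h)⟩
  left_inv s := by
    apply Subtype.ext
    rfl
  right_inv g := by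
    ext q
    obtain ⟨a, rfl⟩ := Quotient.exists_rep q
    rfl

theorem polyFn_color {κ : Type*} [Fintype κ] [DecidableEq κ] (Φ : (κ → κ → Prop) → ℂ) :
    PolyFn (fun m => ∑ s : κ → Fin m, Φ (fun x y => s x = s y)) := by
  classical
  have : Finite (Setoid κ) := Finite.of_injective (fun r : Setoid κ => r.r)
    (fun r r' h => Setoid.ext fun a b => by
      have := congrFun (congrFun h a) b
      exact iff_of_eq this)
  have : Fintype (Setoid κ) := Fintype.ofFinite _
  refine ⟨∑ r : Setoid κ, C (Φ r.r) * descPochhammer ℂ (Fintype.card (Quotient r)), fun m => ?_⟩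
  rw [eval_finsetSum]
  have h1 : ∑ s : κ → Fin m, Φ (fun x y => s x = s y) =
      ∑ r : Setoid κ, ∑ s : κ → Fin m with Setoid.ker s = r, Φ r.r := by
    rw [← Finset.sum_fiberwise (s := (Finset.univ : Finset (κ → Fin m))) (g := fun s => Setoid.ker s)]
    refine sum_congr rfl fun r _ => sum_congr rfl fun s hs => ?_
    rw [mem_filter] at hs
    rw [← hs.2]
    rfl
  beta_reduce
  rw [h1]
  refine sum_congr rfl fun r _ => ?_
  rw [eval_mul, eval_C, descPochhammer_eval_eq_descFactorial, sum_const, nsmul_eq_mul, mul_comm]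
  congr 2
  have h2 : (univ.filter fun s : κ → Fin m => Setoid.ker s = r).card
      = Fintype.card {s : κ → Fin m // Setoid.ker s = r} := by
    rw [Fintype.card_subtype]
  rw [h2, Fintype.card_congr (kerEquiv r m), Fintype.card_embedding_eq, Fintype.card_fin]

end Pool.Agent.Q253.SL2
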