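import Pool.Agent.Q253.SL2.Center

set_option autoImplicit false
set_option linter.unusedSectionVars false

/-!
# A representation by shifts and the centralizer of the generators
-/

namespace Pool.Agent.Q253.SL2

open Finset Polynomial

attribute [local instance 100] LieRing.ofAssociativeRing

/-- functions of two complex variables -/
abbrev W := ℂ → ℂ → ℂ

/-- `K(c,h) = 2c - h/2 - h²/4` -/
noncomputable def Kf (c h : ℂ) : ℂ := 2 * c - h / 2 - h * h / 4

/-- shift operator with coefficient -/
def sh (α : ℂ → ℂ → ℂ) (a : ℂ) : Module.End ℂ W where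
  toFun ψ := fun c h => α c h * ψ c (h + a)
  map_add' ψ ψ' := by funext c h; simp only [Pi.add_apply]; ring
  map_smul' r ψ := by funext c h; simp only [Pi.smul_apply, smul_eq_mul, RingHom.id_apply]; ring

theorem sh_apply (α : ℂ → ℂ → ℂ) (a : ℂ) (ψ : W) (c h : ℂ) :
    sh α a ψ c h = α c h * ψ c (h + a) := rfl

/-- multiplication by the second variable -/
def opH : Module.End ℂ W := sh (fun _ h => h) 0

section rep

variable (α β : ℂ → ℂ → ℂ) (hαβ : ∀ c h, β c h * α c (h + 2) = Kf c h)

include hαβ in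
theorem rep_rel : (opH * sh α (-2) - sh α (-2) * opH = (2 : ℂ) • sh α (-2)) ∧
    (opH * sh β 2 - sh β 2 * opH = (-2 : ℂ) • sh β 2) ∧
    (sh α (-2) * sh β 2 - sh β 2 * sh α (-2) = opH) := by
  refine ⟨?_, ?_, ?_⟩
  · apply LinearMap.ext; intro ψ; funext c h
    simp only [LinearMap.sub_apply, Module.End.mul_apply, opH, sh_apply, Pi.sub_apply,
      LinearMap.smul_apply, Pi.smul_apply, smul_eq_mul, add_zero]
    ring
  · apply LinearMap.ext; intro ψ; funext c h
    simp only [LinearMap.sub_apply, Module.End.mul_apply, opH, sh_apply, Pi.sub_apply,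
      LinearMap.smul_apply, Pi.smul_apply, smul_eq_mul, add_zero]
    ring
  · apply LinearMap.ext; intro ψ; funext c h
    simp only [LinearMap.sub_apply, Module.End.mul_apply, opH, sh_apply, Pi.sub_apply, add_zero]
    have e1 := hαβ c h
    have e2 := hαβ c (h + -2)
    have e3 : h + -2 + 2 = h := by ring
    have e4 : h + 2 + -2 = h := by ring
    rw [e3] at e2
    rw [e3, e4]
    unfold Kf at e1 e2
    linear_combination ψ c h * e2 - ψ c h * e1

/-- the representation by shifts -/
noncomputable def rep : U →ₐ[ℂ] Module.End ℂ W :=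
  algOf (sh α (-2)) (sh β 2) opH (rep_rel α β hαβ).1 (rep_rel α β hαβ).2.1 (rep_rel α β hαβ).2.2

theorem rep_E : rep α β hαβ uE = sh α (-2) := algOf_uE _ _ _ _ _ _
theorem rep_F : rep α β hαβ uF = sh β 2 := algOf_uF _ _ _ _ _ _
theorem rep_H : rep α β hαβ uH = opH := algOf_uH _ _ _ _ _ _

theorem rep_Cas : rep α β hαβ Cas = sh (fun c _ => c) 0 := by
  unfold Cas
  rw [map_smul, map_add, map_add, map_smul, map_mul, map_mul, map_mul, rep_E, rep_F, rep_H]
  apply LinearMap.ext; intro ψ; funext c h
  simp only [LinearMap.add_apply, Module.End.mul_apply, opH, sh_apply, Pi.add_apply,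
      LinearMap.smul_apply, Pi.smul_apply, smul_eq_mul, add_zero]
  have e1 := hαβ c h
  have e2 := hαβ c (h + -2)
  have e3 : h + -2 + 2 = h := by ring
  have e4 : h + 2 + -2 = h := by ring
  rw [e3] at e2
  rw [e3, e4]
  unfold Kf at e1 e2
  linear_combination (1 / 4) * ψ c h * e2 + (1 / 4) * ψ c h * e1

/-- evaluation of a polynomial in two variables -/
noncomputable def ev2 (c h : ℂ) : ℂ[X][X] →+* ℂ := eval₂RingHom (evalRingHom c) h

theorem ev2_C (c h : ℂ) (q : ℂ[X]) : ev2 c h (C q) = q.eval c := by simp [ev2]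

theorem rep_aeval (q : ℂ[X]) : rep α β hαβ (aeval Cas q) = sh (fun c _ => q.eval c) 0 := by
  induction q using Polynomial.induction_on' with
  | add p q hp hq =>
    rw [map_add, map_add, hp, hq]
    apply LinearMap.ext; intro ψ; funext c h
    simp only [LinearMap.add_apply, sh_apply, Pi.add_apply, eval_add]
    ring
  | monomial n a =>
    rw [aeval_monomial, map_mul, map_pow, rep_Cas, AlgHom.commutes]
    have key : ∀ n : ℕ, (sh (fun c _ => c) 0) ^ n = sh (fun c _ => c ^ n) 0 := by
      intro n
      induction n with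
      | zero =>
        apply LinearMap.ext; intro ψ; funext c h
        simp [sh_apply]
      | succ n ih =>
        rw [pow_succ, ih]
        apply LinearMap.ext; intro ψ; funext c h
        simp only [Module.End.mul_apply, sh_apply, add_zero]
        ring
    rw [key]
    apply LinearMap.ext; intro ψ; funext c h
    simp only [Module.End.mul_apply, sh_apply, add_zero, Module.algebraMap_end_apply,
      Pi.smul_apply, smul_eq_mul, eval_monomial]
    ring

theorem rep_phi (G : ℂ[X][X]) : rep α β hαβ (phi G) = sh (fun c h => ev2 c h G) 0 := by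
  induction G using Polynomial.induction_on with
  | C q =>
    rw [phi_C, rep_aeval]
    simp only [ev2_C]
  | add p q hp hq =>
    rw [map_add, map_add, hp, hq]
    apply LinearMap.ext; intro ψ; funext c h
    simp only [LinearMap.add_apply, sh_apply, Pi.add_apply, map_add]
    ring
  | monomial n q ih =>
    rw [pow_succ, ← mul_assoc, map_mul, map_mul, ih, phi_X, rep_H]
    apply LinearMap.ext; intro ψ; funext c h
    simp only [Module.End.mul_apply, sh_apply, add_zero, opH, map_mul]
    have : ev2 c h X = h := by simp [ev2]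
    rw [this]
    ring

/-- delta function -/
noncomputable def dl (c0 h0 : ℂ) : W := fun c h => if c = c0 ∧ h = h0 then 1 else 0

theorem sh_pow (a : ℂ) (n : ℕ) : ∃ γ : ℂ → ℂ → ℂ, (sh α a) ^ n = sh γ (n * a) := by
  induction n with
  | zero =>
    refine ⟨fun _ _ => 1, ?_⟩
    apply LinearMap.ext; intro ψ; funext c h
    simp [sh_apply]
  | succ n ih =>
    obtain ⟨γ, hγ⟩ := ih
    refine ⟨fun c h => γ c h * α c (h + n * a), ?_⟩
    rw [pow_succ, hγ]
    apply LinearMap.ext; intro ψ; funext c h
    simp only [Module.End.mul_apply, sh_apply]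
    push_cast
    rw [mul_assoc]
    congr 3
    ring

theorem sh_one_pow (a : ℂ) (n : ℕ) : (sh (fun _ _ => 1) a) ^ n = sh (fun _ _ => 1) (n * a) := by
  induction n with
  | zero =>
    apply LinearMap.ext; intro ψ; funext c h
    simp [sh_apply]
  | succ n ih =>
    rw [pow_succ, ih]
    apply LinearMap.ext; intro ψ; funext c h
    simp only [Module.End.mul_apply, sh_apply]
    push_cast
    rw [one_mul, one_mul, one_mul]
    congr 1
    ring

end rep

theorem ev2_ext (G G' : ℂ[X][X]) (h : ∀ c h, ev2 c h G = ev2 c h G') : G = G' := by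
  ext1 n
  have h1 : ∀ c : ℂ, G.map (evalRingHom c) = G'.map (evalRingHom c) := by
    intro c
    apply Polynomial.funext
    intro y
    have := h c y
    simpa [ev2, eval₂_eq_eval_map] using this
  apply Polynomial.funext
  intro c
  have := congrArg (fun P => P.coeff n) (h1 c)
  simpa [coeff_map] using this

/-- matrix coefficient -/
theorem comm_H_zero (α β : ℂ → ℂ → ℂ) (hαβ : ∀ c h, β c h * α c (h + 2) = Kf c h) (z : U)
    (hz : Commute uH z) (c0 h0 h1 : ℂ) (hne : h1 ≠ h0) :
    rep α β hαβ z (dl c0 h0) c0 h1 = 0 := by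
  have e1 : rep α β hαβ (uH * z) = rep α β hαβ (z * uH) := by rw [hz.eq]
  rw [map_mul, map_mul, rep_H] at e1
  have e2 := congrArg (fun L : Module.End ℂ W => L (dl c0 h0) c0 h1) e1
  simp only [Module.End.mul_apply] at e2
  have e3 : opH (dl c0 h0) = h0 • dl c0 h0 := by
    funext c h
    simp only [opH, sh_apply, add_zero, Pi.smul_apply, smul_eq_mul, dl]
    by_cases hh : c = c0 ∧ h = h0
    · rw [if_pos hh, hh.2]
    · rw [if_neg hh, mul_zero, mul_zero]
  rw [e3, map_smul] at e2
  simp only [opH, sh_apply, add_zero, Pi.smul_apply, smul_eq_mul] at e2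
  have e4 : (h1 - h0) * rep α β hαβ z (dl c0 h0) c0 h1 = 0 := by linear_combination e2
  rcases mul_eq_zero.mp e4 with h | h
  · exact absurd (sub_eq_zero.mp h) hne
  · exact h

/-- pairing with the normal form -/
theorem rep_normal (α β : ℂ → ℂ → ℂ) (hαβ : ∀ c h, β c h * α c (h + 2) = Kf c h)
    (A B : ℕ →₀ ℂ[X][X]) (ψ : W) (c h : ℂ) :
    rep α β hαβ (A.sum (fun i G => uF ^ (i + 1) * phi G) + B.sum (fun k G => phi G * uE ^ k)) ψ c h
      = ∑ i ∈ A.support, ((sh β 2) ^ (i + 1)) (sh (fun c h => ev2 c h (A i)) 0 ψ) c h +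
        ∑ k ∈ B.support, ev2 c h (B k) * ((sh α (-2)) ^ k) ψ c h := by
  rw [map_add, LinearMap.add_apply, Pi.add_apply, Pi.add_apply]
  unfold Finsupp.sum
  rw [map_sum, map_sum, LinearMap.sum_apply, LinearMap.sum_apply, Finset.sum_apply,
    Finset.sum_apply, Finset.sum_apply, Finset.sum_apply]
  congr 1
  · refine sum_congr rfl fun i _ => ?_
    rw [map_mul, map_pow, rep_F, rep_phi]
    rfl
  · refine sum_congr rfl fun k _ => ?_
    rw [map_mul, map_pow, rep_E, rep_phi, Module.End.mul_apply, sh_apply, add_zero]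

theorem weight_zero (z : U) (hz : Commute uH z) : ∃ G, z = phi G := by
  obtain ⟨A, B, rfl⟩ := normal_form z
  -- the coefficients of positive weight
  have hB : ∀ k, B (k + 1) = 0 := by
    intro k
    apply ev2_ext
    intro c h
    rw [map_zero]
    have hαβ : ∀ c h : ℂ, Kf c h * (fun _ _ => (1 : ℂ)) c (h + 2) = Kf c h := by
      intro c h; simp
    have e1 := comm_H_zero (fun _ _ => 1) Kf hαβ _ hz c (h - 2 * (k + 1)) h (by
      intro h'
      have : (2 : ℂ) * (k + 1) = 0 := by linear_combination h'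
      have h2 : ((2 * (k + 1) : ℕ) : ℂ) ≠ 0 := by exact_mod_cast (by omega : 2 * (k + 1) ≠ 0)
      exact h2 (by push_cast; exact this))
    rw [rep_normal] at e1
    have e2 : ∑ i ∈ A.support, ((sh Kf 2) ^ (i + 1)) (sh (fun c h => ev2 c h (A i)) 0
        (dl c (h - 2 * (k + 1)))) c h = 0 := by
      apply sum_eq_zero
      intro i _
      obtain ⟨γ, hγ⟩ := sh_pow Kf 2 (i + 1)
      rw [hγ, sh_apply, sh_apply]
      have : dl c (h - 2 * (k + 1)) c (h + ((i + 1 : ℕ) : ℂ) * 2 + 0) = 0 := by
        unfold dl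
        rw [if_neg]
        rintro ⟨_, h'⟩
        have h2 : ((2 * (i + 1) + 2 * (k + 1) : ℕ) : ℂ) ≠ 0 := by
          exact_mod_cast (by omega : 2 * (i + 1) + 2 * (k + 1) ≠ 0)
        apply h2
        push_cast at h' ⊢
        linear_combination h'
      rw [this, mul_zero, mul_zero]
    rw [e2, zero_add] at e1
    rw [Finset.sum_eq_single (k + 1)] at e1
    · rw [sh_one_pow, sh_apply] at e1
      have : dl c (h - 2 * (k + 1)) c (h + ((k + 1 : ℕ) : ℂ) * (-2)) = 1 := by
        unfold dl
        rw [if_pos]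
        refine ⟨rfl, ?_⟩
        push_cast
        ring
      rw [this] at e1
      simpa using e1
    · intro k' _ hk'
      rw [sh_one_pow, sh_apply]
      have : dl c (h - 2 * (k + 1)) c (h + (k' : ℂ) * (-2)) = 0 := by
        unfold dl
        rw [if_neg]
        rintro ⟨_, h'⟩
        apply hk'
        have h2 : ((k' : ℕ) : ℂ) = ((k + 1 : ℕ) : ℂ) := by
          push_cast
          linear_combination (-1 / 2) * h'
        exact_mod_cast h2
      rw [this, mul_zero, mul_zero]
    · intro hk
      rw [Finsupp.notMem_support_iff.mp hk, map_zero, zero_mul]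
  have hA : ∀ k, A k = 0 := by
    intro k
    apply ev2_ext
    intro c h
    rw [map_zero]
    have hαβ : ∀ c h : ℂ, (fun _ _ => (1 : ℂ)) c h * (fun c h => Kf c (h - 2)) c (h + 2) = Kf c h := by
      intro c h; simp
    have e1 := comm_H_zero (fun c h => Kf c (h - 2)) (fun _ _ => 1) hαβ _ hz c h
      (h - 2 * (k + 1)) (by
      intro h'
      have : (2 : ℂ) * (k + 1) = 0 := by linear_combination -h'
      have h2 : ((2 * (k + 1) : ℕ) : ℂ) ≠ 0 := by exact_mod_cast (by omega : 2 * (k + 1) ≠ 0)
      exact h2 (by push_cast; exact this))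
    rw [rep_normal] at e1
    have e2 : ∑ k' ∈ B.support, ev2 c (h - 2 * (k + 1)) (B k') *
        ((sh (fun c h => Kf c (h - 2)) (-2)) ^ k') (dl c h) c (h - 2 * (k + 1)) = 0 := by
      apply sum_eq_zero
      intro i _
      obtain ⟨γ, hγ⟩ := sh_pow (fun c h => Kf c (h - 2)) (-2) i
      rw [hγ, sh_apply]
      have : dl c h c (h - 2 * (k + 1) + (i : ℂ) * (-2)) = 0 := by
        unfold dl
        rw [if_neg]
        rintro ⟨_, h'⟩
        have h2 : ((2 * i + 2 * (k + 1) : ℕ) : ℂ) ≠ 0 := by
          exact_mod_cast (by omega : 2 * i + 2 * (k + 1) ≠ 0)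
        apply h2
        push_cast
        linear_combination -h'
      rw [this, mul_zero, mul_zero]
    rw [e2, add_zero] at e1
    rw [Finset.sum_eq_single k] at e1
    · rw [sh_one_pow, sh_apply, sh_apply] at e1
      have h3 : h - 2 * ((k : ℂ) + 1) + ((k + 1 : ℕ) : ℂ) * 2 = h := by push_cast; ring
      rw [h3, add_zero] at e1
      have : dl c h c h = 1 := by
        unfold dl
        rw [if_pos ⟨rfl, rfl⟩]
      rw [this] at e1
      simpa using e1
    · intro k' _ hk'
      rw [sh_one_pow, sh_apply, sh_apply]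
      have : dl c h c (h - 2 * (k + 1) + ((k' + 1 : ℕ) : ℂ) * 2 + 0) = 0 := by
        unfold dl
        rw [if_neg]
        rintro ⟨_, h'⟩
        apply hk'
        have h2 : ((k' : ℕ) : ℂ) = ((k : ℕ) : ℂ) := by
          push_cast at h'
          linear_combination (1 / 2) * h'
        exact_mod_cast h2
      rw [this, mul_zero, mul_zero]
    · intro hk
      rw [Finsupp.notMem_support_iff.mp hk]
      have : (sh (fun c h => ev2 c h (0 : ℂ[X][X])) 0 (dl c h)) = 0 := by
        funext c' h'
        rw [sh_apply, map_zero, zero_mul]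
        rfl
      rw [this, map_zero]
      rfl
  refine ⟨B 0, ?_⟩
  have hA0 : A = 0 := by ext1 k; exact hA k
  have hB0 : B = Finsupp.single 0 (B 0) := by
    ext1 k
    cases k with
    | zero => simp
    | succ k => rw [hB k]; simp
  rw [hA0, hB0, Finsupp.sum_zero_index, Finsupp.sum_single_index (by simp)]
  simp

theorem centralizer (z : U) (hH : Commute uH z) (hE : Commute uE z) :
    ∃ q : ℂ[X], aeval Cas q = z := by
  obtain ⟨G, rfl⟩ := weight_zero z hH
  have hαβ : ∀ c h : ℂ, Kf c h * (fun _ _ => (1 : ℂ)) c (h + 2) = Kf c h := by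
    intro c h; simp
  have e1 : rep (fun _ _ => 1) Kf hαβ (uE * phi G) = rep (fun _ _ => 1) Kf hαβ (phi G * uE) := by
    rw [hE.eq]
  rw [map_mul, map_mul, rep_E, rep_phi] at e1
  have e2 : ∀ c h, ev2 c (h + 2) G = ev2 c h G := by
    intro c h
    have := congrArg (fun L : Module.End ℂ W => L (fun _ _ => 1) c (h + 2)) e1
    simp only [Module.End.mul_apply, sh_apply, mul_one, one_mul, add_zero] at this
    rw [← this]
    congr 2
    ring
  refine ⟨G.coeff 0, ?_⟩
  rw [← phi_C]
  congr 1
  apply ev2_ext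
  intro c h
  rw [ev2_C]
  -- the polynomial in the second variable
  set g : ℂ[X] := G.map (evalRingHom c) with hg
  have e3 : ∀ y, ev2 c y G = g.eval y := by
    intro y
    simp [ev2, hg, eval₂_eq_eval_map]
  have e4 : ∀ n : ℕ, g.eval ((2 * n : ℕ) : ℂ) = g.eval 0 := by
    intro n
    induction n with
    | zero => simp
    | succ n ih =>
      rw [← ih, ← e3, ← e3, ← e2 c ((2 * n : ℕ) : ℂ)]
      congr 2
      push_cast
      ring
  have e5 : g = C (g.eval 0) := by
    apply Polynomial.eq_of_infinite_eval_eq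
    apply Set.Infinite.mono _ (Set.infinite_range_of_injective
      (f := fun n : ℕ => ((2 * n : ℕ) : ℂ)) (fun a b hab => by
        have hab' : ((2 * a : ℕ) : ℂ) = ((2 * b : ℕ) : ℂ) := hab
        have : (2 * a : ℕ) = 2 * b := by exact_mod_cast hab'
        omega))
    rintro _ ⟨n, rfl⟩
    change g.eval _ = eval _ _
    rw [e4, eval_C]
  rw [e3, e5, eval_C]
  have : g.eval 0 = g.coeff 0 := (coeff_zero_eq_eval_zero g).symm
  rw [this, hg, coeff_map]
  rfl

theorem aeval_Cas_injective (p q : ℂ[X]) (h : aeval Cas p = aeval Cas q) : p = q := by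
  have hαβ : ∀ c h : ℂ, Kf c h * (fun _ _ => (1 : ℂ)) c (h + 2) = Kf c h := by
    intro c h; simp
  apply Polynomial.funext
  intro c
  have e1 := congrArg (fun u => rep (fun _ _ => 1) Kf hαβ u (fun _ _ => 1) c 0) h
  simp only [rep_aeval, sh_apply, mul_one] at e1
  exact e1

end Pool.Agent.Q253.SL2
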