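import Pool.Agent.Q253.SL2.Words

set_option autoImplicit false
set_option linter.unusedSectionVars false

/-!
# Evaluation of valid words in the Weyl algebra
-/

namespace Pool.Agent.Q253.SL2

open Finset

section weyl

variable {ι : Type*} [Fintype ι] [LinearOrder ι]
variable {A : Type*} [Ring A] [Algebra ℂ A] (x d : A)

/-- the letters: `u₀ = x, u₁ = d` (tails) and `u'₀ = d, u'₁ = -x` (heads) -/
def Lt : Bool → Bool → A
  | false, false => x
  | false, true => d
  | true, false => d
  | true, true => -x

/-- product of a word under a valuation -/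
def pr {L : Type*} (φ : L → A) (l : List L) : A := (l.map φ).prod

/-- evaluation of a coloured word -/
def ev (s : ι → Bool) (w : List (ι × Bool)) : A := pr (fun c => Lt x d c.2 (s c.1)) w

/-- the sum over colourings -/
def Hs (w : List (ι × Bool)) : A := ∑ s : ι → Bool, ev x d s w

/-- commutators of letters -/
noncomputable def com : Bool → Bool → Bool → Bool → ℂ
  | false, false, false, true => -1
  | false, true, false, false => 1
  | false, false, true, false => -1
  | false, true, true, true => -1
  | true, false, false, false => 1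
  | true, true, false, true => 1
  | true, false, true, true => -1
  | true, true, true, false => 1
  | _, _, _, _ => 0

theorem com_spec (hxd : d * x = x * d + 1) (b a b' c : Bool) :
    Lt x d b a * Lt x d b' c - Lt x d b' c * Lt x d b a = algebraMap ℂ A (com b a b' c) := by
  cases b <;> cases a <;> cases b' <;> cases c <;>
    simp only [Lt, com, map_zero, map_one, map_neg, sub_self, mul_neg, neg_mul, neg_neg, hxd] <;>
    noncomm_ring

theorem pr_append {L : Type*} (φ : L → A) (l₁ l₂ : List L) :
    pr φ (l₁ ++ l₂) = pr φ l₁ * pr φ l₂ := by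
  simp [pr]

theorem pr_cons {L : Type*} (φ : L → A) (c : L) (l : List L) :
    pr φ (c :: l) = φ c * pr φ l := by
  simp [pr]

theorem pr_congr {L : Type*} {φ ψ : L → A} {l : List L} (h : ∀ c ∈ l, φ c = ψ c) :
    pr φ l = pr ψ l := by
  unfold pr
  rw [List.map_congr_left h]

theorem pr_map {L L' : Type*} (τ : L' → L) (φ : L → A) (l : List L') :
    pr φ (l.map τ) = pr (φ ∘ τ) l := by
  unfold pr
  rw [List.map_map]

theorem pr_update_neg {L : Type*} [DecidableEq L] (φ : L → A) (p : L) (y : A) (l : List L)
    (hl : l.Nodup) (hp : p ∈ l) :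
    pr (Function.update φ p (-y)) l = - pr (Function.update φ p y) l := by
  obtain ⟨l₁, l₂, rfl⟩ := List.append_of_mem hp
  rw [List.nodup_middle, List.nodup_cons] at hl
  have key : ∀ (z z' : A) (l' : List L), (∀ c ∈ l', c ∈ l₁ ++ l₂) →
      pr (Function.update φ p z) l' = pr (Function.update φ p z') l' := by
    intro z z' l' h
    apply pr_congr
    intro c hc
    have : c ≠ p := fun h' => hl.1 (h' ▸ h c hc)
    rw [Function.update_of_ne this, Function.update_of_ne this]
  rw [pr_append, pr_append, pr_cons, pr_cons, Function.update_self, Function.update_self,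
    key (-y) y l₁ (fun c hc => List.mem_append_left _ hc),
    key (-y) y l₂ (fun c hc => List.mem_append_right _ hc), neg_mul, mul_neg]

theorem final_identity (Q : A → A → A) (h1 : ∀ y z, Q (-y) z = - Q y z)
    (h2 : ∀ y z, Q y (-z) = - Q y z) (b b' : Bool) :
    (2 : ℂ) • ∑ a : Bool, ∑ c : Bool, com b a b' c • Q (Lt x d (!b) a) (Lt x d (!b') c) =
      sg (ind (b' = true)) • ∑ a : Bool, ∑ _c : Bool, Q (Lt x d (!b) a) (Lt x d b a) := by
  cases b <;> cases b' <;>
    simp only [Fintype.sum_bool, com, Lt, Bool.not_false, Bool.not_true, h1, h2, zero_smul,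
      one_smul, neg_smul, smul_neg, neg_neg, zero_add, add_zero, ind_true, sg_one,
      reduceCtorEq, ind_false, sg_zero] <;>
    module

variable {γ δ : List (ι × Bool)} {i : ι} {b : Bool} {j : ι} {b' : Bool}

theorem Hs_swap (hxd : d * x = x * d + 1) (h : Sw γ δ i b j b') :
    Hs x d (γ ++ (i, b) :: (j, b') :: δ) - Hs x d (γ ++ (j, b') :: (i, b) :: δ) =
      ((1 / 2 : ℂ) * sg (ind (b' = true))) • Hs x d ((γ ++ δ).map (tau i b j b')) := by
  set K : (ι → Bool) → A := fun s => com b (s i) b' (s j) • ev x d s (γ ++ δ) with hK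
  have e1 : Hs x d (γ ++ (i, b) :: (j, b') :: δ) - Hs x d (γ ++ (j, b') :: (i, b) :: δ) =
      ∑ s, K s := by
    unfold Hs
    rw [← sum_sub_distrib]
    refine sum_congr rfl fun s _ => ?_
    rw [hK]
    dsimp only
    unfold ev
    rw [pr_append, pr_append, pr_append, pr_cons, pr_cons, pr_cons, pr_cons]
    dsimp only
    have := com_spec x d hxd b (s i) b' (s j)
    rw [← mul_sub, ← mul_assoc, ← mul_assoc, ← sub_mul, this, Algebra.smul_def,
      Algebra.commutes, ← mul_assoc, ← Algebra.commutes, ← mul_assoc, Algebra.commutes]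
  have e2 : (4 : ℕ) • ∑ s, K s = ∑ s : ι → Bool, ∑ a : Bool, ∑ c : Bool,
      K (Function.update (Function.update s i a) j c) := by
    rw [sum_update i (fun s => ∑ c : Bool, K (Function.update s j c)), sum_update j K,
      Fintype.card_bool, smul_smul]
    norm_num
  have e3 : (4 : ℕ) • Hs x d ((γ ++ δ).map (tau i b j b')) =
      ∑ s : ι → Bool, ∑ a : Bool, ∑ c : Bool,
      ev x d (Function.update (Function.update s i a) j c) ((γ ++ δ).map (tau i b j b')) := by
    unfold Hs
    rw [sum_update i (fun s => ∑ c : Bool, ev x d (Function.update s j c)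
      ((γ ++ δ).map (tau i b j b'))), sum_update j (fun s => ev x d s
      ((γ ++ δ).map (tau i b j b'))), Fintype.card_bool, smul_smul]
    norm_num
  have e4 : (2 : ℂ) • ((4 : ℕ) • ∑ s, K s) =
      sg (ind (b' = true)) • ((4 : ℕ) • Hs x d ((γ ++ δ).map (tau i b j b'))) := by
    rw [e2, e3, smul_sum, smul_sum]
    refine sum_congr rfl fun s _ => ?_
    set φ : ι × Bool → A := fun c => Lt x d c.2 (s c.1) with hφ
    set Q : A → A → A := fun y z =>
      pr (Function.update (Function.update φ (i, !b) y) (j, !b') z) (γ ++ δ) with hQ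
    have hne : ((i, !b) : ι × Bool) ≠ (j, !b') := fun h' => h.hij (congrArg Prod.fst h')
    have q1 : ∀ y z, Q (-y) z = - Q y z := by
      intro y z
      rw [hQ]
      dsimp only
      rw [Function.update_comm hne, pr_update_neg _ _ _ _ h.n0 h.m1, Function.update_comm hne]
    have q2 : ∀ y z, Q y (-z) = - Q y z := by
      intro y z
      rw [hQ]
      dsimp only
      rw [pr_update_neg _ _ _ _ h.n0 h.m2]
    have q3 : ∀ a c, ev x d (Function.update (Function.update s i a) j c) (γ ++ δ) =
        Q (Lt x d (!b) a) (Lt x d (!b') c) := by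
      intro a c
      rw [hQ]
      dsimp only
      unfold ev
      apply pr_congr
      rintro ⟨k, e⟩ hk
      dsimp only
      by_cases h1 : k = j
      · subst h1
        have h2 : e = !b' := by
          have : e ≠ b' := by
            rintro rfl
            exact h.n2 hk
          cases e <;> cases b' <;> simp_all
        subst h2
        rw [Function.update_self, Function.update_self]
      · rw [Function.update_of_ne h1, Function.update_of_ne (a := (k, e))
          (fun h' => h1 (congrArg Prod.fst h'))]
        by_cases h3 : k = i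
        · subst h3
          have h2 : e = !b := by
            have : e ≠ b := by
              rintro rfl
              exact h.n1 hk
            cases e <;> cases b <;> simp_all
          subst h2
          rw [Function.update_self, Function.update_self]
        · rw [Function.update_of_ne h3, Function.update_of_ne
            (fun h' => h3 (congrArg Prod.fst h'))]
    have q4 : ∀ a c, ev x d (Function.update (Function.update s i a) j c)
        ((γ ++ δ).map (tau i b j b')) = Q (Lt x d (!b) a) (Lt x d b a) := by
      intro a c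
      rw [hQ]
      dsimp only
      unfold ev
      rw [pr_map]
      apply pr_congr
      intro y hy
      rw [Function.comp]
      rcases h.cases y hy with ⟨h1, h2⟩ | ⟨h1, h2⟩
      · rw [h2, h1, Function.update_self, Function.update_of_ne h.hij, Function.update_self]
      · rw [h2, Function.update_of_ne h1, Function.update_of_ne (a := y)
          (fun h' => h1 (congrArg Prod.fst h'))]
        obtain ⟨k, e⟩ := y
        dsimp only at h1 ⊢
        by_cases h3 : k = i
        · subst h3
          have h2 : e = !b := by
            have : e ≠ b := by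
              rintro rfl
              exact h.n1 hy
            cases e <;> cases b <;> simp_all
          subst h2
          rw [Function.update_self, Function.update_self]
        · rw [Function.update_of_ne h3, Function.update_of_ne
            (fun h' => h3 (congrArg Prod.fst h'))]
    have q5 : ∀ a c, K (Function.update (Function.update s i a) j c) =
        com b a b' c • Q (Lt x d (!b) a) (Lt x d (!b') c) := by
      intro a c
      rw [hK]
      dsimp only
      rw [q3, Function.update_self, Function.update_of_ne h.hij, Function.update_self]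
    simp only [q4, q5]
    exact final_identity x d Q q1 q2 b b'
  rw [e1]
  have e5 : ∑ s, K s = (1 / 8 : ℂ) • ((2 : ℂ) • ((4 : ℕ) • ∑ s, K s)) := by
    rw [← Nat.cast_smul_eq_nsmul ℂ, smul_smul, smul_smul]
    norm_num
  rw [e5, e4, ← Nat.cast_smul_eq_nsmul ℂ, smul_smul, smul_smul]
  congr 1
  push_cast
  ring

/-! ### removal of a pair -/

theorem pair_sum (hxd : d * x = x * d + 1) (b : Bool) :
    ∑ a : Bool, Lt x d b a * Lt x d (!b) a = algebraMap ℂ A (- sg (ind (b = true))) := by
  cases b <;>
    simp only [Fintype.sum_bool, Lt, Bool.not_false, Bool.not_true, ind_true, sg_one,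
      reduceCtorEq, ind_false, sg_zero, map_neg, map_one, neg_neg, hxd, mul_neg, neg_mul] <;>
    abel

theorem Hs_pair (hxd : d * x = x * d + 1) (h1 : ∀ c ∈ γ ++ δ, c.1 ≠ i) :
    Hs x d (γ ++ (i, b) :: (i, !b) :: δ) = (-(1 / 2 : ℂ) * sg (ind (b = true))) •
      Hs x d (γ ++ δ) := by
  have e1 : (2 : ℕ) • Hs x d (γ ++ (i, b) :: (i, !b) :: δ) =
      (- sg (ind (b = true))) • Hs x d (γ ++ δ) := by
    unfold Hs
    rw [← Fintype.card_bool, ← sum_update i, smul_sum]
    refine sum_congr rfl fun s _ => ?_
    have k1 : ∀ a, ∀ l : List (ι × Bool), (∀ c ∈ l, c ∈ γ ++ δ) →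
        pr (fun c => Lt x d c.2 ((Function.update s i a) c.1)) l =
        pr (fun c => Lt x d c.2 (s c.1)) l := by
      intro a l hl
      apply pr_congr
      intro c hc
      rw [Function.update_of_ne (h1 c (hl c hc))]
    have k2 : ∀ a, ev x d (Function.update s i a) (γ ++ (i, b) :: (i, !b) :: δ) =
        pr (fun c => Lt x d c.2 (s c.1)) γ * (Lt x d b a * Lt x d (!b) a) *
        pr (fun c => Lt x d c.2 (s c.1)) δ := by
      intro a
      unfold ev
      rw [pr_append, pr_cons, pr_cons, k1 a γ (fun c hc => List.mem_append_left _ hc),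
        k1 a δ (fun c hc => List.mem_append_right _ hc)]
      dsimp only
      rw [Function.update_self]
      simp only [mul_assoc]
    simp only [k2]
    rw [← Finset.sum_mul, ← Finset.mul_sum, pair_sum x d hxd]
    unfold ev
    rw [pr_append, Algebra.smul_def, ← Algebra.commutes, mul_assoc]
  have e5 : Hs x d (γ ++ (i, b) :: (i, !b) :: δ) =
      (1 / 2 : ℂ) • ((2 : ℕ) • Hs x d (γ ++ (i, b) :: (i, !b) :: δ)) := by
    rw [← Nat.cast_smul_eq_nsmul ℂ, smul_smul]
    norm_num
  rw [e5, e1, smul_smul]
  congr 1
  ring

theorem X_pair (p q : ι) (hpq : p ≠ q) :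
    Xw (γ ++ (i, b) :: (i, !b) :: δ) p q = Xw (γ ++ δ) p q := by
  unfold Xw
  rw [prs_two]
  have : lab p (i, b) * lab q (i, !b) = 0 := lab_mul p q hpq (i, b)
  rw [this]
  have h2 : ∀ r : ι, lab r (i, b) + lab r (i, !b) = 0 := fun r => zmod2_add_self _
  rw [h2, h2, zero_mul, mul_zero, add_zero, add_zero, add_zero]

theorem B_pair_ne (k : ι) (hk : k ≠ i) :
    Bw (γ ++ (i, b) :: (i, !b) :: δ) k = Bw (γ ++ δ) k := by
  unfold Bw
  rw [prs_two]
  simp [hk.symm]

theorem B_pair (h1 : ∀ c ∈ γ ++ δ, c.1 ≠ i) :
    Bw (γ ++ (i, b) :: (i, !b) :: δ) i = ind (b = true) := by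
  have k : ∀ e : Bool, ∀ l : List (ι × Bool), (∀ c ∈ l, c ∈ γ ++ δ) →
      (l.map fun c => ind (c = (i, e))).sum = 0 := by
    intro e l hl
    rw [← sum_zero' l]
    congr 1
    apply List.map_congr_left
    intro c hc
    exact ind_neg fun h => h1 c (hl c hc) (congrArg Prod.fst h)
  unfold Bw
  rw [prs_two, k false δ (fun c hc => List.mem_append_right _ hc),
    k true γ (fun c hc => List.mem_append_left _ hc)]
  have : prs (fun c => ind (c = (i, true))) (fun c => ind (c = (i, false))) (γ ++ δ) = 0 :=
    (prs_congr (f' := fun _ => 0) (fun c hc => ind_neg fun h => h1 c hc (congrArg Prod.fst h))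
      (fun c _ => rfl)).trans (prs_zero_left _ _)
  rw [this]
  cases b <;> simp

theorem B_pair_sum (h1 : ∀ c ∈ γ ++ δ, c.1 ≠ i) :
    ∑ k, Bw (γ ++ (i, b) :: (i, !b) :: δ) k = ind (b = true) + ∑ k, Bw (γ ++ δ) k := by
  have h0 : Bw (γ ++ δ) i = 0 :=
    (prs_congr (f' := fun _ => 0) (fun c hc => ind_neg fun h => h1 c hc (congrArg Prod.fst h))
      (fun c _ => rfl)).trans (prs_zero_left _ _)
  rw [← Finset.add_sum_erase _ _ (mem_univ i), ← Finset.add_sum_erase (s := univ)
    (f := fun k => Bw (γ ++ δ) k) (mem_univ i), B_pair h1, h0, zero_add]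
  congr 1
  refine sum_congr rfl fun k hk => ?_
  exact B_pair_ne k (Finset.ne_of_mem_erase hk)

/-! ### the evaluation -/

/-- the value of a word with `k` pairs -/
noncomputable def cc (k : ℕ) (w : List (ι × Bool)) : ℂ :=
  (-1) ^ Fintype.card ι * (-1 / 2) ^ k * sg (∑ i, Bw w i) * val (P (Xw w))

theorem cc_nil : cc 0 ([] : List (ι × Bool)) = 2 ^ Fintype.card ι := by
  unfold cc
  have h1 : ∑ i : ι, Bw [] i = 0 := by
    apply sum_eq_zero
    intro i _
    rfl
  have h2 : val (P (Xw ([] : List (ι × Bool)))) = (-2) ^ Fintype.card ι := by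
    rw [val_eq ((Polynomial.X : Polynomial ℂ) ^ Fintype.card ι) fun m => ?_]
    · simp
    · unfold P
      have : ∀ s : ι → Fin m, sg (T fun p q => Xw ([] : List (ι × Bool)) p q * ind (ker s p q)) = 1 := by
        intro s
        have : (T fun p q => Xw ([] : List (ι × Bool)) p q * ind (ker s p q)) = 0 := by
          refine (T_congr fun p q _ => ?_).trans T_zero
          unfold Xw
          simp [prs]
        rw [this, sg_zero]
      simp [this]
  rw [h1, h2, sg_zero, pow_zero, mul_one, mul_one, ← mul_pow]
  norm_num

theorem cc_swap (k : ℕ) (hij : i ≠ j) (hw : Valid (γ ++ (i, b) :: (j, b') :: δ))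
    (hw' : Valid (γ ++ (j, b') :: (i, b) :: δ)) :
    cc (k + 1) (γ ++ (i, b) :: (j, b') :: δ) = cc (k + 1) (γ ++ (j, b') :: (i, b) :: δ) +
      (1 / 2 * sg (ind (b' = true))) * cc k ((γ ++ δ).map (tau i b j b')) := by
  have h := Sw.of_valid hij hw
  have h1 := h.val_rec hw hw'
  have h2 : ∑ k, Bw (γ ++ (j, b') :: (i, b) :: δ) k = ∑ k, Bw (γ ++ (i, b) :: (j, b') :: δ) k :=
    sum_congr rfl fun k _ => B_swap k hij
  have h3 := congrArg sg h.B_sum
  rw [sg_add, sg_add] at h3
  unfold cc
  rw [h2]
  have h4 := sg_mul_self (Xw (γ ++ (i, b) :: (j, b') :: δ) i j)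
  generalize val (P (Xw (γ ++ (i, b) :: (j, b') :: δ))) = V at *
  generalize val (P (Xw (γ ++ (j, b') :: (i, b) :: δ))) = V' at *
  generalize val (P (Xw ((γ ++ δ).map (tau i b j b')))) = V'' at *
  generalize sg (∑ k, Bw (γ ++ (i, b) :: (j, b') :: δ) k) = B at *
  generalize sg (∑ k, Bw ((γ ++ δ).map (tau i b j b')) k) = B'' at *
  generalize sg (Xw (γ ++ (i, b) :: (j, b') :: δ) i j) = X at *
  generalize sg (ind (b' = true)) = e at *
  rw [pow_succ]
  have h5 : B * (V - V') = - (e * B'') * V'' := by
    rw [h1, ← h3]
    ring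
  linear_combination (-(1 / 2 : ℂ) * (-1) ^ Fintype.card ι * (-1 / 2) ^ k) * h5

theorem cc_pair (k : ℕ) (h1 : ∀ c ∈ γ ++ δ, c.1 ≠ i) :
    cc (k + 1) (γ ++ (i, b) :: (i, !b) :: δ) =
      (-(1 / 2) * sg (ind (b = true))) * cc k (γ ++ δ) := by
  unfold cc
  rw [B_pair_sum h1, sg_add, P_congr (X := Xw (γ ++ (i, b) :: (i, !b) :: δ))
    (Y := Xw (γ ++ δ)) (fun p q hpq => X_pair p q hpq), pow_succ]
  ring

theorem Hs_eq (hxd : d * x = x * d + 1) (k : ℕ) : ∀ w : List (ι × Bool), Valid w →
    w.length = 2 * k → Hs x d w = algebraMap ℂ A (cc k w) := by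
  induction k with
  | zero =>
    intro w hw hl
    have : w = [] := List.eq_nil_of_length_eq_zero (by simpa using hl)
    subst this
    rw [cc_nil]
    unfold Hs ev pr
    simp [map_ofNat]
  | succ k ih =>
    have key : ∀ (μ : List (ι × Bool)) (γ δ : List (ι × Bool)) (i : ι) (b : Bool),
        Valid (γ ++ (i, b) :: (μ ++ (i, !b) :: δ)) →
        (γ ++ (i, b) :: (μ ++ (i, !b) :: δ)).length = 2 * (k + 1) →
        Hs x d (γ ++ (i, b) :: (μ ++ (i, !b) :: δ)) =
          algebraMap ℂ A (cc (k + 1) (γ ++ (i, b) :: (μ ++ (i, !b) :: δ))) := by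
      intro μ
      induction μ with
      | nil =>
        intro γ δ i b hv hl
        simp only [List.nil_append] at hv hl ⊢
        obtain ⟨hv1, hv2⟩ := hv
        have hmem : ∀ c : ι × Bool, c ∈ γ ++ (i, b) :: (i, !b) :: δ ↔
            c = (i, b) ∨ c = (i, !b) ∨ c ∈ γ ++ δ := by
          intro c
          simp only [List.mem_append, List.mem_cons]
          tauto
        rw [List.nodup_middle, List.nodup_cons, List.nodup_middle, List.nodup_cons] at hv1
        obtain ⟨n1, n2, n3⟩ := hv1
        have n1' : (i, b) ∉ γ ++ δ := by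
          intro h
          apply n1
          simp only [List.mem_append, List.mem_cons] at h ⊢
          tauto
        have h1 : ∀ c ∈ γ ++ δ, c.1 ≠ i := by
          rintro ⟨k, e⟩ hc h
          dsimp only at h
          subst h
          by_cases he : e = b
          · subst he; exact n1' hc
          · apply n2
            have : e = !b := by cases e <;> cases b <;> simp_all
            rw [← this]
            exact hc
        rw [Hs_pair x d hxd h1, cc_pair k h1, ih (γ ++ δ) ?_ ?_, map_mul, Algebra.smul_def]
        · refine ⟨n3, fun c hc => ?_⟩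
          have := hv2 c ((hmem c).mpr (Or.inr (Or.inr hc)))
          rw [hmem] at this
          rcases this with h | h | h
          · exact absurd (congrArg Prod.fst h) (h1 c hc)
          · exact absurd (congrArg Prod.fst h) (h1 c hc)
          · exact h
        · simp only [List.length_append, List.length_cons] at hl ⊢
          omega
      | cons c μ' ihμ =>
        intro γ δ i b hv hl
        obtain ⟨j, b'⟩ := c
        rw [List.cons_append] at hv hl ⊢
        have hij : i ≠ j := by
          rintro rfl
          obtain ⟨hv1, _⟩ := hv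
          rw [List.nodup_middle, List.nodup_cons] at hv1
          obtain ⟨n1, n2⟩ := hv1
          rw [List.nodup_middle, List.nodup_cons] at n2
          by_cases he : b' = b
          · subst he
            exact n1 (by simp)
          · have : b' = !b := by cases b' <;> cases b <;> simp_all
            subst this
            exact n2.1 (by simp)
        have hv' : Valid (γ ++ (j, b') :: (i, b) :: (μ' ++ (i, !b) :: δ)) := by
          have hp : (γ ++ (j, b') :: (i, b) :: (μ' ++ (i, !b) :: δ)).Perm
              (γ ++ (i, b) :: (j, b') :: (μ' ++ (i, !b) :: δ)) :=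
            List.Perm.append_left _ (List.Perm.swap _ _ _)
          exact ⟨hp.nodup_iff.mpr hv.1, fun c hc =>
            hp.mem_iff.mpr (hv.2 c (hp.mem_iff.mp hc))⟩
        have h := Sw.of_valid hij hv
        have e1 := Hs_swap x d hxd h
        have e2 := ihμ (γ ++ [(j, b')]) δ i b (by simpa using hv') (by
          simp only [List.length_append, List.length_cons, List.length_nil] at hl ⊢
          omega)
        have e3 : (γ ++ [(j, b')]) ++ (i, b) :: (μ' ++ (i, !b) :: δ) =
            γ ++ (j, b') :: (i, b) :: (μ' ++ (i, !b) :: δ) := by simp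
        rw [e3] at e2
        have e4 := ih _ h.valid' (by
          simp only [List.length_append, List.length_cons, List.length_map] at hl ⊢
          omega)
        rw [sub_eq_iff_eq_add] at e1
        rw [e1, e2, e4, cc_swap k hij hv hv', map_add, map_mul, Algebra.smul_def, add_comm]
    intro w hv hl
    cases w with
    | nil => simp at hl
    | cons c ρ =>
      obtain ⟨i, b⟩ := c
      have h1 := hv.2 (i, b) List.mem_cons_self
      have h2 : (i, !b) ∈ ρ := by
        rcases List.mem_cons.mp h1 with h | h
        · simp at h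
        · exact h
      obtain ⟨μ, δ, rfl⟩ := List.append_of_mem h2
      exact key μ [] δ i b hv hl

end weyl

end Pool.Agent.Q253.SL2
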