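import Pool.Agent.Q253.SL2.Graph

set_option autoImplicit false

/-!
# Words in the Weyl algebra: evaluation of a sum over colourings
-/

namespace Pool.Agent.Q253.SL2

open Finset

/-! ### averaging over one coordinate -/

theorem sum_update {ι γ M : Type*} [DecidableEq ι] [Fintype ι] [Fintype γ] [AddCommMonoid M]
    (j : ι) (F : (ι → γ) → M) :
    ∑ s : ι → γ, ∑ c : γ, F (Function.update s j c) = Fintype.card γ • ∑ s, F s := by
  have h1 : ∑ s : ι → γ, ∑ c : γ, F (Function.update s j c) =
      ∑ z : (ι → γ) × γ, F (Function.update z.1 j z.2) := by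
    rw [Fintype.sum_prod_type]
  have hinv : Function.Involutive
      (fun z : (ι → γ) × γ => ((Function.update z.1 j z.2, z.1 j) : (ι → γ) × γ)) := by
    rintro ⟨s, c⟩
    simp
  have h2 : ∑ z : (ι → γ) × γ, F (Function.update z.1 j z.2) = ∑ z : (ι → γ) × γ, F z.1 := by
    rw [← Equiv.sum_comp hinv.toPerm (fun z : (ι → γ) × γ => F z.1)]
    rfl
  rw [h1, h2, Fintype.sum_prod_type, ← Finset.sum_nsmul]
  refine sum_congr rfl fun s _ => ?_
  simp

/-! ### the polynomials -/

section P

variable {ι : Type*} [Fintype ι] [LinearOrder ι]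

/-- colour sum of a symmetric matrix -/
noncomputable def P (X : ι → ι → ZMod 2) (m : ℕ) : ℂ :=
  ∑ s : ι → Fin m, sg (T fun p q => X p q * ind (ker s p q))

theorem polyFn_P (X : ι → ι → ZMod 2) : PolyFn (P X) :=
  polyFn_color (fun r => sg (T fun p q => X p q * ind (r p q)))

theorem P_congr {X Y : ι → ι → ZMod 2} (h : ∀ p q, p ≠ q → X p q = Y p q) : P X = P Y := by
  funext m
  unfold P
  refine sum_congr rfl fun s _ => ?_
  congr 1
  exact T_congr fun p q hpq => by rw [h p q hpq]

theorem ker_comm {κ γ : Type*} (s : κ → γ) (p q : κ) : ind (ker s p q) = ind (ker s q p) :=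
  ind_congr eq_comm

theorem P_rec (X X' X'' : ι → ι → ZMod 2) (hX : ∀ p q, X p q = X q p)
    (hX' : ∀ p q, X' p q = X' q p) (hX'' : ∀ p q, X'' p q = X'' q p) (i j : ι) (hij : i ≠ j)
    (h1 : ∀ p q, p ≠ q → ¬ ((p = i ∧ q = j) ∨ (p = j ∧ q = i)) → X' p q = X p q)
    (h2 : X' i j = X i j + 1)
    (h3 : ∀ p q, p ≠ q → p ≠ i → p ≠ j → q ≠ i → q ≠ j → X'' p q = X p q)
    (h4 : ∀ l, l ≠ i → l ≠ j → X'' i l = X i l + X j l)
    (h5 : ∀ l, l ≠ j → X'' j l = 0) (m : ℕ) :
    (m : ℂ) * (P X m - P X' m) = 2 * sg (X i j) * P X'' m := by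
  have z4 : ∀ x y : ZMod 2, x + y = 0 → x = y := by decide
  -- pointwise
  have e1 : ∀ s : ι → Fin m, sg (T fun p q => X p q * ind (ker s p q)) -
      sg (T fun p q => X' p q * ind (ker s p q)) =
      if s j = s i then 2 * sg (X i j) * sg (T fun p q => X'' p q * ind (ker s p q)) else 0 := by
    intro s
    have k1 := T_eq_of_two (fun p q => X p q * ind (ker s p q))
      (fun p q => X' p q * ind (ker s p q)) (fun p q => by rw [hX, ker_comm])
      (fun p q => by rw [hX', ker_comm]) i j hij
      (fun p q hpq a b c e => by rw [h1 p q hpq (by tauto)])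
      (fun l a b => by
        rw [h1 i l a.symm (by tauto), h1 j l b.symm (by tauto), zmod2_add_self, zmod2_add_self])
    rw [h2, ← add_mul, ← add_assoc, zmod2_add_self, zero_add, one_mul] at k1
    by_cases hs : s j = s i
    · rw [if_pos hs]
      have hk : ind (ker s i j) = 1 := ind_pos hs.symm
      rw [hk] at k1
      have k2 := T_eq_of_two (fun p q => X p q * ind (ker s p q))
        (fun p q => X'' p q * ind (ker s p q)) (fun p q => by rw [hX, ker_comm])
        (fun p q => by rw [hX'', ker_comm]) i j hij
        (fun p q hpq a b c e => by rw [h3 p q hpq a b c e])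
        (fun l a b => by
          have : ind (ker s j l) = ind (ker s i l) := by
            unfold ker; rw [hs]
          rw [h4 l a b, h5 l b, this, zero_mul, add_zero, add_mul, ← add_assoc, zmod2_add_self,
            zero_add])
      rw [hk, hX'' i j, h5 i hij, zero_mul, add_zero, mul_one] at k2
      have t1 : T (fun p q => X' p q * ind (ker s p q)) =
          T (fun p q => X p q * ind (ker s p q)) + 1 := by
        rw [← k1, ← add_assoc, zmod2_add_self, zero_add]
      have t2 : T (fun p q => X p q * ind (ker s p q)) =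
          X i j + T (fun p q => X'' p q * ind (ker s p q)) := by
        rw [← k2, add_assoc, zmod2_add_self, add_zero]
      rw [t1, sg_add, t2, sg_add, sg_one]
      ring
    · rw [if_neg hs]
      have hk : ind (ker s i j) = 0 := ind_neg fun h => hs h.symm
      rw [hk] at k1
      rw [z4 _ _ k1, sub_self]
  have e2 : P X m - P X' m = ∑ s : ι → Fin m, if s j = s i then
      2 * sg (X i j) * sg (T fun p q => X'' p q * ind (ker s p q)) else 0 := by
    unfold P
    rw [← sum_sub_distrib]
    exact sum_congr rfl fun s _ => e1 s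
  have e3 := sum_update j (fun s : ι → Fin m => if s j = s i then
      2 * sg (X i j) * sg (T fun p q => X'' p q * ind (ker s p q)) else 0)
  rw [Fintype.card_fin, nsmul_eq_mul, ← e2] at e3
  rw [← e3]
  unfold P
  rw [mul_sum]
  refine sum_congr rfl fun s _ => ?_
  have e4 : ∀ c : Fin m, (if (Function.update s j c) j = (Function.update s j c) i then
      2 * sg (X i j) * sg (T fun p q => X'' p q * ind (ker (Function.update s j c) p q)) else 0) =
      if c = s i then 2 * sg (X i j) * sg (T fun p q => X'' p q * ind (ker s p q)) else 0 := by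
    intro c
    rw [Function.update_self, Function.update_of_ne hij]
    have : T (fun p q => X'' p q * ind (ker (Function.update s j c) p q)) =
        T (fun p q => X'' p q * ind (ker s p q)) := by
      refine T_congr fun p q hpq => ?_
      by_cases hp : p = j
      · subst hp
        rw [h5 q hpq.symm, zero_mul, zero_mul]
      · by_cases hq : q = j
        · subst hq
          rw [hX'' p q, h5 p hp, zero_mul, zero_mul]
        · unfold ker
          rw [Function.update_of_ne hp, Function.update_of_ne hq]
    rw [this]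
  rw [sum_congr rfl fun c _ => e4 c]
  simp

theorem val_P_rec (X X' X'' : ι → ι → ZMod 2) (hX : ∀ p q, X p q = X q p)
    (hX' : ∀ p q, X' p q = X' q p) (hX'' : ∀ p q, X'' p q = X'' q p) (i j : ι) (hij : i ≠ j)
    (h1 : ∀ p q, p ≠ q → ¬ ((p = i ∧ q = j) ∨ (p = j ∧ q = i)) → X' p q = X p q)
    (h2 : X' i j = X i j + 1)
    (h3 : ∀ p q, p ≠ q → p ≠ i → p ≠ j → q ≠ i → q ≠ j → X'' p q = X p q)
    (h4 : ∀ l, l ≠ i → l ≠ j → X'' i l = X i l + X j l)
    (h5 : ∀ l, l ≠ j → X'' j l = 0) :
    val (P X) - val (P X') = - sg (X i j) * val (P X'') := by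
  have h := fun m => P_rec X X' X'' hX hX' hX'' i j hij h1 h2 h3 h4 h5 m
  have e1 : val (fun m => (m : ℂ) * (P X m - P X' m)) =
      val (fun m => 2 * sg (X i j) * P X'' m) := by
    congr 1
    funext m
    exact h m
  rw [val_id_mul ((polyFn_P X).sub (polyFn_P X')), val_sub (polyFn_P X) (polyFn_P X'),
    val_const_mul _ (polyFn_P X'')] at e1
  linear_combination (-1 / 2 : ℂ) * e1

end P

/-! ### pair sums along a list -/

section prs

variable {L : Type*}

/-- sum over pairs of positions `p < q` of `f(w_p) g(w_q)` -/
def prs (f g : L → ZMod 2) : List L → ZMod 2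
  | [] => 0
  | c :: l => f c * (l.map g).sum + prs f g l

theorem prs_append (f g : L → ZMod 2) (l₁ l₂ : List L) :
    prs f g (l₁ ++ l₂) = prs f g l₁ + prs f g l₂ + (l₁.map f).sum * (l₂.map g).sum := by
  induction l₁ with
  | nil => simp [prs]
  | cons c l ih =>
    simp only [List.cons_append, prs, ih, List.map_append, List.sum_append, List.map_cons,
      List.sum_cons]
    ring

theorem prs_map {L' : Type*} (τ : L' → L) (f g : L → ZMod 2) (l : List L') :
    prs f g (l.map τ) = prs (f ∘ τ) (g ∘ τ) l := by
  induction l with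
  | nil => rfl
  | cons c l ih => simp only [List.map_cons, prs, ih, List.map_map, Function.comp]

theorem prs_congr {f f' g g' : L → ZMod 2} {l : List L} (hf : ∀ c ∈ l, f c = f' c)
    (hg : ∀ c ∈ l, g c = g' c) : prs f g l = prs f' g' l := by
  induction l with
  | nil => rfl
  | cons c l ih =>
    simp only [prs]
    rw [ih (fun c hc => hf c (List.mem_cons_of_mem _ hc))
      (fun c hc => hg c (List.mem_cons_of_mem _ hc)), hf c List.mem_cons_self,
      List.map_congr_left (fun c hc => hg c (List.mem_cons_of_mem _ hc))]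

theorem prs_add_left (f f' g : L → ZMod 2) (l : List L) :
    prs (fun c => f c + f' c) g l = prs f g l + prs f' g l := by
  induction l with
  | nil => simp [prs]
  | cons c l ih => simp only [prs, ih]; ring

theorem prs_zero_left (g : L → ZMod 2) (l : List L) : prs (fun _ => 0) g l = 0 := by
  induction l with
  | nil => rfl
  | cons c l ih => simp only [prs, ih]; ring

theorem sum_zero' (l : List L) : (l.map (fun _ => (0 : ZMod 2))).sum = 0 := by
  induction l with
  | nil => rfl
  | cons c l ih => simp

theorem prs_zero_right (f : L → ZMod 2) (l : List L) : prs f (fun _ => 0) l = 0 := by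
  induction l with
  | nil => rfl
  | cons c l ih => simp only [prs, ih, sum_zero', mul_zero, add_zero]

theorem prs_comm (f g : L → ZMod 2) (l : List L) :
    prs f g l + prs g f l + (l.map (fun c => f c * g c)).sum = (l.map f).sum * (l.map g).sum := by
  induction l with
  | nil => simp [prs]
  | cons c l ih =>
    simp only [prs, List.map_cons, List.sum_cons]
    linear_combination ih

theorem prs_swap (f g : L → ZMod 2) (l₁ l₂ : List L) (y z : L) :
    prs f g (l₁ ++ z :: y :: l₂) = prs f g (l₁ ++ y :: z :: l₂) + (f y * g z + f z * g y) := by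
  simp only [prs_append, prs, List.map_cons, List.sum_cons]
  generalize (l₁.map f).sum = a
  generalize (l₂.map g).sum = b
  generalize f y = c1; generalize f z = c2; generalize g y = c3; generalize g z = c4
  generalize prs f g l₁ = c5; generalize prs f g l₂ = c6
  have : (2 : ZMod 2) = 0 := by decide
  linear_combination (-c1 * c4) * this

theorem prs_two (f g : L → ZMod 2) (l₁ l₂ : List L) (y z : L) :
    prs f g (l₁ ++ y :: z :: l₂) = prs f g (l₁ ++ l₂) + (f y * g z + (f y + f z) * (l₂.map g).sum +
      (l₁.map f).sum * (g y + g z)) := by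
  simp only [prs_append, prs, List.map_cons, List.sum_cons]
  ring

theorem sum_ind_eq [DecidableEq L] (a : L) (l : List L) (hl : l.Nodup) :
    (l.map (fun c => ind (c = a))).sum = ind (a ∈ l) := by
  induction l with
  | nil => simp
  | cons c l ih =>
    rw [List.nodup_cons] at hl
    rw [List.map_cons, List.sum_cons, ih hl.2]
    by_cases h : c = a
    · subst h
      simp [hl.1]
    · have : ind (a ∈ c :: l) = ind (a ∈ l) := ind_congr (by simp [Ne.symm h])
      rw [this, ind_neg h, zero_add]

end prs

end Pool.Agent.Q253.SL2
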