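import Pool.Agent.Q253.SL2.Word

set_option autoImplicit false
set_option linter.unusedSectionVars false

/-!
# Valid words: combinatorics of the swap and of the removal of a pair
-/

namespace Pool.Agent.Q253.SL2

open Finset

section words

variable {ι : Type*} [Fintype ι] [LinearOrder ι]

/-- indicator of the label -/
noncomputable def lab (i : ι) (c : ι × Bool) : ZMod 2 := ind (c.1 = i)

/-- crossing matrix of a word -/
noncomputable def Xw (w : List (ι × Bool)) (i j : ι) : ZMod 2 := prs (lab i) (lab j) w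

/-- orientation of a label in a word -/
noncomputable def Bw (w : List (ι × Bool)) (i : ι) : ZMod 2 :=
  prs (fun c => ind (c = (i, true))) (fun c => ind (c = (i, false))) w

/-- each label occurs twice, with both orientations, or not at all -/
def Valid (w : List (ι × Bool)) : Prop := w.Nodup ∧ ∀ c ∈ w, (c.1, !c.2) ∈ w

theorem lab_eq (i : ι) (c : ι × Bool) : lab i c = ind (c = (i, true)) + ind (c = (i, false)) := by
  obtain ⟨k, b⟩ := c
  unfold lab
  by_cases h : k = i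
  · subst h
    cases b <;> simp
  · simp [h]

theorem lab_sum (w : List (ι × Bool)) (hw : w.Nodup) (i : ι) :
    (w.map (lab i)).sum = ind ((i, true) ∈ w) + ind ((i, false) ∈ w) := by
  have : lab i = fun c => ind (c = (i, true)) + ind (c = (i, false)) := funext (lab_eq i)
  rw [this, List.sum_map_add, sum_ind_eq _ _ hw, sum_ind_eq _ _ hw]

theorem Valid.lab_sum {w : List (ι × Bool)} (hw : Valid w) (i : ι) : (w.map (lab i)).sum = 0 := by
  rw [SL2.lab_sum w hw.1]
  have : ind ((i, true) ∈ w) = ind ((i, false) ∈ w) :=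
    ind_congr ⟨fun h => hw.2 _ h, fun h => hw.2 _ h⟩
  rw [this, zmod2_add_self]

theorem lab_mul (i j : ι) (hij : i ≠ j) (c : ι × Bool) : lab i c * lab j c = 0 := by
  unfold lab
  by_cases h : c.1 = i
  · have : ¬ c.1 = j := fun h' => hij (h.symm.trans h')
    rw [ind_neg this, mul_zero]
  · rw [ind_neg h, zero_mul]

theorem Xw_add_comm (w : List (ι × Bool)) (i j : ι) (hij : i ≠ j) :
    Xw w i j + Xw w j i = (w.map (lab i)).sum * (w.map (lab j)).sum := by
  unfold Xw
  rw [← prs_comm]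
  have : (w.map fun c => lab i c * lab j c).sum = 0 := by
    rw [← sum_zero' w]
    congr 1
    exact List.map_congr_left fun c _ => lab_mul i j hij c
  rw [this, add_zero]

theorem Valid.comm {w : List (ι × Bool)} (hw : Valid w) (i j : ι) : Xw w i j = Xw w j i := by
  by_cases hij : i = j
  · rw [hij]
  · have h := Xw_add_comm w i j hij
    rw [hw.lab_sum, zero_mul] at h
    have z4 : ∀ x y : ZMod 2, x + y = 0 → x = y := by decide
    exact z4 _ _ h

/-- situation of a swap -/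
structure Sw (γ δ : List (ι × Bool)) (i : ι) (b : Bool) (j : ι) (b' : Bool) : Prop where
  hij : i ≠ j
  n0 : (γ ++ δ).Nodup
  n1 : (i, b) ∉ γ ++ δ
  n2 : (j, b') ∉ γ ++ δ
  m1 : (i, !b) ∈ γ ++ δ
  m2 : (j, !b') ∈ γ ++ δ
  rest : ∀ c ∈ γ ++ δ, c.1 ≠ i → c.1 ≠ j → (c.1, !c.2) ∈ γ ++ δ

theorem Sw.of_valid {γ δ : List (ι × Bool)} {i : ι} {b : Bool} {j : ι} {b' : Bool}
    (hij : i ≠ j) (h : Valid (γ ++ (i, b) :: (j, b') :: δ)) : Sw γ δ i b j b' := by
  obtain ⟨h1, h2⟩ := h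
  rw [List.nodup_middle, List.nodup_cons, List.nodup_middle, List.nodup_cons] at h1
  obtain ⟨h3, h4, h5⟩ := h1
  have key : ∀ c : ι × Bool, c ∈ γ ++ (i, b) :: (j, b') :: δ ↔
      c = (i, b) ∨ c = (j, b') ∨ c ∈ γ ++ δ := by
    intro c
    simp only [List.mem_append, List.mem_cons]
    tauto
  refine ⟨hij, h5, ?_, h4, ?_, ?_, ?_⟩
  · intro h
    apply h3
    simp only [List.mem_append, List.mem_cons] at h ⊢
    tauto
  · have := h2 (i, b) ((key _).mpr (Or.inl rfl))
    rw [key] at this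
    simpa [hij] using this
  · have := h2 (j, b') ((key _).mpr (Or.inr (Or.inl rfl)))
    rw [key] at this
    simpa [hij.symm] using this
  · intro c hc h6 h7
    have := h2 c ((key _).mpr (Or.inr (Or.inr hc)))
    rw [key] at this
    simpa [h6, h7] using this

/-- relabelling of the partner -/
def tau (i : ι) (b : Bool) (j : ι) (b' : Bool) (c : ι × Bool) : ι × Bool :=
  if c = (j, !b') then (i, b) else c

variable {γ δ : List (ι × Bool)} {i : ι} {b : Bool} {j : ι} {b' : Bool}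

theorem Sw.cases (h : Sw γ δ i b j b') (c : ι × Bool) (hc : c ∈ γ ++ δ) :
    (c = (j, !b') ∧ tau i b j b' c = (i, b)) ∨ (c.1 ≠ j ∧ tau i b j b' c = c) := by
  unfold tau
  by_cases h1 : c = (j, !b')
  · left
    exact ⟨h1, if_pos h1⟩
  · right
    refine ⟨?_, if_neg h1⟩
    intro h2
    obtain ⟨k, e⟩ := c
    dsimp only at h2
    subst h2
    by_cases h3 : e = b'
    · subst h3; exact h.n2 hc
    · apply h1
      cases e <;> cases b' <;> simp_all

theorem Sw.lab_i (h : Sw γ δ i b j b') (c : ι × Bool) (hc : c ∈ γ ++ δ) :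
    lab i (tau i b j b' c) = lab i c + lab j c := by
  unfold lab
  rcases h.cases c hc with ⟨h1, h2⟩ | ⟨h1, h2⟩
  · rw [h2, h1]
    simp [h.hij.symm]
  · rw [h2, ind_neg h1, add_zero]

theorem Sw.lab_j (h : Sw γ δ i b j b') (c : ι × Bool) (hc : c ∈ γ ++ δ) :
    lab j (tau i b j b' c) = 0 := by
  unfold lab
  rcases h.cases c hc with ⟨h1, h2⟩ | ⟨h1, h2⟩
  · rw [h2]
    exact ind_neg h.hij
  · rw [h2, ind_neg h1]

theorem Sw.lab_l (h : Sw γ δ i b j b') (l : ι) (hi : l ≠ i) (hj : l ≠ j) (c : ι × Bool)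
    (hc : c ∈ γ ++ δ) : lab l (tau i b j b' c) = lab l c := by
  unfold lab
  rcases h.cases c hc with ⟨h1, h2⟩ | ⟨h1, h2⟩
  · rw [h2, h1]
    rw [ind_neg hi.symm, ind_neg hj.symm]
  · rw [h2]

theorem Sw.sum_j (h : Sw γ δ i b j b') (l : List (ι × Bool)) (hl : l.Nodup)
    (hs : ∀ c ∈ l, c ∈ γ ++ δ) : (l.map (lab j)).sum = ind ((j, !b') ∈ l) := by
  rw [lab_sum l hl]
  have h1 : (j, b') ∉ l := fun h' => h.n2 (hs _ h')
  cases b'
  · rw [ind_neg h1, add_zero]; rfl
  · rw [ind_neg h1, zero_add]; rfl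

theorem Sw.sum_i (h : Sw γ δ i b j b') (l : List (ι × Bool)) (hl : l.Nodup)
    (hs : ∀ c ∈ l, c ∈ γ ++ δ) : (l.map (lab i)).sum = ind ((i, !b) ∈ l) := by
  rw [lab_sum l hl]
  have h1 : (i, b) ∉ l := fun h' => h.n1 (hs _ h')
  cases b
  · rw [ind_neg h1, add_zero]; rfl
  · rw [ind_neg h1, zero_add]; rfl

theorem ind_split (γ δ : List (ι × Bool)) (hn : (γ ++ δ).Nodup) (a : ι × Bool) (ha : a ∈ γ ++ δ) :
    ind (a ∈ δ) = 1 + ind (a ∈ γ) := by
  rw [List.nodup_append] at hn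
  have h1 := sum_ind_eq a (γ ++ δ) (List.nodup_append.mpr hn)
  rw [List.map_append, List.sum_append, sum_ind_eq a γ hn.1, sum_ind_eq a δ hn.2.1,
    ind_pos ha] at h1
  have : ∀ x y : ZMod 2, x + y = 1 → y = 1 + x := by decide
  exact this _ _ h1

/-- the words of a swap -/
theorem Sw.valid' (h : Sw γ δ i b j b') : Valid ((γ ++ δ).map (tau i b j b')) := by
  constructor
  · apply List.Nodup.map_on _ h.n0
    intro c hc c' hc' hcc
    rcases h.cases c hc with ⟨h1, h2⟩ | ⟨h1, h2⟩ <;>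
      rcases h.cases c' hc' with ⟨h3, h4⟩ | ⟨h3, h4⟩
    · rw [h1, h3]
    · rw [h2, h4] at hcc
      exact absurd (hcc ▸ hc') h.n1
    · rw [h2, h4] at hcc
      exact absurd (hcc ▸ hc) h.n1
    · rw [h2, h4] at hcc
      exact hcc
  · intro c hc
    rw [List.mem_map] at hc ⊢
    obtain ⟨c0, hc0, rfl⟩ := hc
    rcases h.cases c0 hc0 with ⟨h1, h2⟩ | ⟨h1, h2⟩
    · rw [h2]
      refine ⟨(i, !b), h.m1, ?_⟩
      rcases h.cases _ h.m1 with ⟨h3, _⟩ | ⟨_, h4⟩
      · exact absurd (congrArg Prod.fst h3) h.hij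
      · exact h4
    · rw [h2]
      by_cases h3 : c0.1 = i
      · have h4 : c0.2 ≠ b := by
          intro h5
          apply h.n1
          rw [← h3, ← h5]
          exact hc0
        refine ⟨(j, !b'), h.m2, ?_⟩
        rcases h.cases _ h.m2 with ⟨_, h6⟩ | ⟨h6, _⟩
        · rw [h6, h3]
          congr 1
          revert h4
          cases c0.2 <;> cases b <;> simp
        · exact absurd rfl h6
      · refine ⟨(c0.1, !c0.2), h.rest c0 hc0 h3 h1, ?_⟩
        rcases h.cases _ (h.rest c0 hc0 h3 h1) with ⟨h6, _⟩ | ⟨_, h6⟩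
        · exact absurd (congrArg Prod.fst h6) h1
        · exact h6

theorem Sw.X_two (_h : Sw γ δ i b j b') (p q : ι) :
    Xw (γ ++ (i, b) :: (j, b') :: δ) p q = Xw (γ ++ δ) p q +
      (ind (i = p) * ind (j = q) + (ind (i = p) + ind (j = p)) * (δ.map (lab q)).sum +
      (γ.map (lab p)).sum * (ind (i = q) + ind (j = q))) :=
  prs_two _ _ _ _ _ _

theorem Sw.X3 (h : Sw γ δ i b j b') (p q : ι) (h1 : p ≠ i) (h2 : p ≠ j) (h3 : q ≠ i) (h4 : q ≠ j) :
    Xw ((γ ++ δ).map (tau i b j b')) p q = Xw (γ ++ (i, b) :: (j, b') :: δ) p q := by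
  rw [h.X_two, ind_neg h1.symm, ind_neg h2.symm, ind_neg h3.symm, ind_neg h4.symm]
  simp only [zero_mul, mul_zero, add_zero]
  unfold Xw
  rw [prs_map]
  exact prs_congr (fun c hc => h.lab_l p h1 h2 c hc) (fun c hc => h.lab_l q h3 h4 c hc)

theorem Sw.X4 (h : Sw γ δ i b j b') (l : ι) (h1 : l ≠ i) (h2 : l ≠ j) :
    Xw ((γ ++ δ).map (tau i b j b')) i l = Xw (γ ++ (i, b) :: (j, b') :: δ) i l +
      Xw (γ ++ (i, b) :: (j, b') :: δ) j l := by
  rw [h.X_two, h.X_two, ind_neg h1.symm, ind_neg h2.symm, ind_neg h.hij, ind_neg h.hij.symm,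
    ind_pos (rfl : i = i), ind_pos (rfl : j = j)]
  have e1 : Xw ((γ ++ δ).map (tau i b j b')) i l = Xw (γ ++ δ) i l + Xw (γ ++ δ) j l := by
    unfold Xw
    rw [prs_map, ← prs_add_left]
    exact prs_congr (fun c hc => h.lab_i c hc) (fun c hc => h.lab_l l h1 h2 c hc)
  rw [e1]
  have z : ∀ x y z : ZMod 2, x + y = x + z + (y + z) := by decide
  simp only [zero_mul, mul_zero, add_zero, zero_add, one_mul]
  exact z _ _ _

theorem Sw.X5 (h : Sw γ δ i b j b') (l : ι) :
    Xw ((γ ++ δ).map (tau i b j b')) j l = 0 := by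
  unfold Xw
  rw [prs_map]
  exact (prs_congr (f' := fun _ => 0) (fun c hc => h.lab_j c hc) (fun c _ => rfl)).trans
    (prs_zero_left _ _)

theorem X_swap (p q : ι) : Xw (γ ++ (j, b') :: (i, b) :: δ) p q =
    Xw (γ ++ (i, b) :: (j, b') :: δ) p q + (ind (i = p) * ind (j = q) + ind (j = p) * ind (i = q)) :=
  prs_swap _ _ _ _ _ _

theorem Sw.val_rec (h : Sw γ δ i b j b') (hw : Valid (γ ++ (i, b) :: (j, b') :: δ))
    (hw' : Valid (γ ++ (j, b') :: (i, b) :: δ)) :
    val (P (Xw (γ ++ (i, b) :: (j, b') :: δ))) - val (P (Xw (γ ++ (j, b') :: (i, b) :: δ))) =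
      - sg (Xw (γ ++ (i, b) :: (j, b') :: δ) i j) *
        val (P (Xw ((γ ++ δ).map (tau i b j b')))) := by
  apply val_P_rec _ _ _ hw.comm hw'.comm h.valid'.comm i j h.hij
  · intro p q hpq hn
    rw [X_swap]
    have e1 : ind (i = p) * ind (j = q) = 0 := by
      by_cases h1 : i = p
      · rw [ind_neg (fun h2 : j = q => hn (Or.inl ⟨h1.symm, h2.symm⟩)), mul_zero]
      · rw [ind_neg h1, zero_mul]
    have e2 : ind (j = p) * ind (i = q) = 0 := by
      by_cases h1 : j = p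
      · rw [ind_neg (fun h2 : i = q => hn (Or.inr ⟨h1.symm, h2.symm⟩)), mul_zero]
      · rw [ind_neg h1, zero_mul]
    rw [e1, e2, add_zero, add_zero]
  · rw [X_swap, ind_pos (rfl : i = i), ind_pos (rfl : j = j), ind_neg h.hij, mul_zero, add_zero,
      mul_one]
  · intro p q _ h1 h2 h3 h4
    exact h.X3 p q h1 h2 h3 h4
  · intro l h1 h2
    exact h.X4 l h1 h2
  · intro l _
    exact h.X5 l

/-! ### orientation signs -/

theorem B_swap (k : ι) (hij : i ≠ j) :
    Bw (γ ++ (j, b') :: (i, b) :: δ) k = Bw (γ ++ (i, b) :: (j, b') :: δ) k := by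
  unfold Bw
  rw [prs_swap]
  have e1 : ind ((i, b) = (k, true)) * ind ((j, b') = (k, false)) = 0 := by
    by_cases h1 : i = k
    · rw [ind_neg (P := (j, b') = (k, false)) (fun h2 => hij (h1.trans (congrArg Prod.fst h2).symm)),
        mul_zero]
    · rw [ind_neg (fun h2 => h1 (congrArg Prod.fst h2)), zero_mul]
  have e2 : ind ((j, b') = (k, true)) * ind ((i, b) = (k, false)) = 0 := by
    by_cases h1 : i = k
    · rw [ind_neg (P := (j, b') = (k, true)) (fun h2 => hij (h1.trans (congrArg Prod.fst h2).symm)),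
        zero_mul]
    · rw [ind_neg (P := (i, b) = (k, false)) (fun h2 => h1 (congrArg Prod.fst h2)), mul_zero]
  rw [e1, e2, add_zero, add_zero]

theorem Bw_v_i (h : Sw γ δ i b j b') : Bw (γ ++ δ) i = 0 := by
  unfold Bw
  cases b
  · exact (prs_congr (g' := fun _ => 0) (fun c _ => rfl)
      (fun c hc => ind_neg fun h' : c = (i, false) => h.n1 (h' ▸ hc))).trans (prs_zero_right _ _)
  · exact (prs_congr (f' := fun _ => 0) (fun c hc => ind_neg fun h' : c = (i, true) =>
      h.n1 (h' ▸ hc)) (fun c _ => rfl)).trans (prs_zero_left _ _)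

theorem Bw_v_j (h : Sw γ δ i b j b') : Bw (γ ++ δ) j = 0 := by
  unfold Bw
  cases b'
  · exact (prs_congr (g' := fun _ => 0) (fun c _ => rfl)
      (fun c hc => ind_neg fun h' : c = (j, false) => h.n2 (h' ▸ hc))).trans (prs_zero_right _ _)
  · exact (prs_congr (f' := fun _ => 0) (fun c hc => ind_neg fun h' : c = (j, true) =>
      h.n2 (h' ▸ hc)) (fun c _ => rfl)).trans (prs_zero_left _ _)

theorem Sw.Bi (h : Sw γ δ i b j b') : Bw (γ ++ (i, b) :: (j, b') :: δ) i =
    ind ((i, !b) ∈ γ) + ind (b = true) := by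
  have h0 := Bw_v_i h
  have hn := List.nodup_append.mp h.n0
  unfold Bw at h0 ⊢
  rw [prs_two, h0, sum_ind_eq _ _ hn.1, sum_ind_eq _ _ hn.2.1]
  have hji := h.hij.symm
  have hs := ind_split γ δ h.n0 _ h.m1
  cases b
  · simp [hji]
  · simp only [Bool.not_true] at hs
    simp [hji, hs, add_comm]

theorem Sw.Bj (h : Sw γ δ i b j b') : Bw (γ ++ (i, b) :: (j, b') :: δ) j =
    ind ((j, !b') ∈ γ) + ind (b' = true) := by
  have h0 := Bw_v_j h
  have hn := List.nodup_append.mp h.n0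
  unfold Bw at h0 ⊢
  rw [prs_two, h0, sum_ind_eq _ _ hn.1, sum_ind_eq _ _ hn.2.1]
  have hji := h.hij
  have hs := ind_split γ δ h.n0 _ h.m2
  cases b'
  · simp [hji]
  · simp only [Bool.not_true] at hs
    simp [hji, hs, add_comm]

theorem Sw.Bk (_h : Sw γ δ i b j b') (k : ι) (h1 : k ≠ i) (h2 : k ≠ j) :
    Bw (γ ++ (i, b) :: (j, b') :: δ) k = Bw (γ ++ δ) k := by
  unfold Bw
  rw [prs_two]
  simp [h1.symm, h2.symm]

theorem Sw.Bk'' (h : Sw γ δ i b j b') (k : ι) (h1 : k ≠ i) (h2 : k ≠ j) :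
    Bw ((γ ++ δ).map (tau i b j b')) k = Bw (γ ++ δ) k := by
  unfold Bw
  rw [prs_map]
  have key : ∀ e : Bool, ∀ c ∈ γ ++ δ, ind (tau i b j b' c = (k, e)) = ind (c = (k, e)) := by
    intro e c hc
    rcases h.cases c hc with ⟨h3, h4⟩ | ⟨h3, h4⟩
    · rw [h4, h3, ind_neg, ind_neg]
      · intro h5; exact h2 (congrArg Prod.fst h5).symm
      · intro h5; exact h1 (congrArg Prod.fst h5).symm
    · rw [h4]
  exact prs_congr (fun c hc => key true c hc) (fun c hc => key false c hc)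

theorem Sw.Bj'' (h : Sw γ δ i b j b') : Bw ((γ ++ δ).map (tau i b j b')) j = 0 := by
  unfold Bw
  rw [prs_map, prs_congr (f' := fun _ => 0) (g' := fun _ => 0)]
  · exact prs_zero_left _ _
  · intro c hc
    rcases h.cases c hc with ⟨h3, h4⟩ | ⟨h3, h4⟩
    · rw [Function.comp, h4]
      exact ind_neg fun h5 => h.hij (congrArg Prod.fst h5)
    · rw [Function.comp, h4]
      exact ind_neg fun h5 => h3 (congrArg Prod.fst h5)
  · intro c hc
    rcases h.cases c hc with ⟨h3, h4⟩ | ⟨h3, h4⟩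
    · rw [Function.comp, h4]
      exact ind_neg fun h5 => h.hij (congrArg Prod.fst h5)
    · rw [Function.comp, h4]
      exact ind_neg fun h5 => h3 (congrArg Prod.fst h5)

theorem Sw.Xv (h : Sw γ δ i b j b') : Xw (γ ++ δ) i j + Xw (γ ++ δ) j i = 1 := by
  rw [Xw_add_comm _ _ _ h.hij, h.sum_i _ h.n0 (fun _ h => h), h.sum_j _ h.n0 (fun _ h => h),
    ind_pos h.m1, ind_pos h.m2, mul_one]

theorem Sw.Bi'' (h : Sw γ δ i b j b') : Bw ((γ ++ δ).map (tau i b j b')) i =
    Xw (γ ++ δ) i j + ind (b = true) := by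
  have k1 : ∀ c ∈ γ ++ δ, ind (tau i b j b' c = (i, b)) = lab j c := by
    intro c hc
    unfold lab
    rcases h.cases c hc with ⟨h3, h4⟩ | ⟨h3, h4⟩
    · rw [h4, h3, ind_pos rfl, ind_pos rfl]
    · rw [h4, ind_neg h3, ind_neg]
      intro h5
      exact h.n1 (h5 ▸ hc)
  have k2 : ∀ c ∈ γ ++ δ, ind (tau i b j b' c = (i, !b)) = lab i c := by
    intro c hc
    unfold lab
    rcases h.cases c hc with ⟨h3, h4⟩ | ⟨h3, h4⟩
    · rw [h4, h3, ind_neg, ind_neg h.hij.symm]
      intro h5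
      have := congrArg Prod.snd h5
      simp at this
    · rw [h4]
      apply ind_congr
      constructor
      · intro h5; rw [h5]
      · intro h5
        obtain ⟨k, e⟩ := c
        dsimp only at h5
        subst h5
        have : e ≠ b := by
          rintro rfl
          exact h.n1 hc
        cases e <;> cases b <;> simp_all
  unfold Bw
  rw [prs_map]
  cases b
  · rw [ind_neg (by simp), add_zero]
    unfold Xw
    exact prs_congr (fun c hc => k2 c hc) (fun c hc => k1 c hc)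
  · rw [ind_pos rfl]
    have : Xw (γ ++ δ) i j + 1 = Xw (γ ++ δ) j i := by
      rw [← h.Xv, ← add_assoc, zmod2_add_self, zero_add]
    rw [this]
    unfold Xw
    exact prs_congr (fun c hc => k1 c hc) (fun c hc => k2 c hc)

theorem Sw.X_ij (h : Sw γ δ i b j b') : Xw (γ ++ (i, b) :: (j, b') :: δ) i j =
    Xw (γ ++ δ) i j + ind ((j, !b') ∈ γ) + ind ((i, !b) ∈ γ) := by
  have hn := List.nodup_append.mp h.n0
  rw [h.X_two, ind_neg h.hij, ind_neg h.hij.symm, ind_pos (rfl : i = i), ind_pos (rfl : j = j),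
    h.sum_j δ hn.2.1 (fun c hc => List.mem_append_right _ hc),
    h.sum_i γ hn.1 (fun c hc => List.mem_append_left _ hc), ind_split γ δ h.n0 _ h.m2]
  have z : ∀ x y z : ZMod 2, x + (1 * 1 + (1 + 0) * (1 + y) + z * (0 + 1)) = x + y + z := by decide
  exact z _ _ _

theorem Sw.B_sum (h : Sw γ δ i b j b') :
    ∑ k, Bw (γ ++ (i, b) :: (j, b') :: δ) k + Xw (γ ++ (i, b) :: (j, b') :: δ) i j =
      ind (b' = true) + ∑ k, Bw ((γ ++ δ).map (tau i b j b')) k := by
  have e1 : ∑ k, (Bw (γ ++ (i, b) :: (j, b') :: δ) k + Bw ((γ ++ δ).map (tau i b j b')) k) =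
      (Bw (γ ++ (i, b) :: (j, b') :: δ) i + Bw ((γ ++ δ).map (tau i b j b')) i) +
      (Bw (γ ++ (i, b) :: (j, b') :: δ) j + Bw ((γ ++ δ).map (tau i b j b')) j) := by
    apply Finset.sum_eq_add i j h.hij
    · rintro k _ ⟨h1, h2⟩
      rw [h.Bk k h1 h2, h.Bk'' k h1 h2, zmod2_add_self]
    · simp
    · simp
  rw [sum_add_distrib, h.Bi, h.Bj, h.Bi'', h.Bj''] at e1
  rw [h.X_ij]
  have z : ∀ S S'' α β bb bb' X : ZMod 2, S + S'' = α + bb + (X + bb) + (β + bb' + 0) →
      S + (X + β + α) = bb' + S'' := by decide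
  exact z _ _ _ _ _ _ _ e1

end words

end Pool.Agent.Q253.SL2
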